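import Pool.Agent.Work.MP_e17eac_co.Bd.B18

/-!
# Ring module: the affine copy
-/

namespace Pool.Agent.Work.MP_e17eac_co.RING

open Finset
open scoped Pointwise

namespace XRL

variable {a R K : ℝ} {A : Finset ℝ} {T : Finset (ℝ × ℝ)} {I : Finset ((ℝ × ℝ) × ℝ)}

lemma cc_inv {x₁ x₂ x : ℝ} (h12 : x₁ ≠ x₂) (h2 : x ≠ x₂) :
    (cc x₁ x₂ x * x₂ - x₁) / (cc x₁ x₂ x - 1) = x := by
  have e2 : x - x₂ ≠ 0 := sub_ne_zero.mpr h2
  have e3 : x₂ - x₁ ≠ 0 := sub_ne_zero.mpr (Ne.symm h12)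
  have e1 : cc x₁ x₂ x - 1 = (x₂ - x₁) / (x - x₂) := by
    rw [cc]
    field_simp
    ring
  rw [e1, cc]
  field_simp
  ring

lemma cc_diff {x₁ x₂ x y : ℝ} (hx : x ≠ x₂) (hy : y ≠ x₂) :
    cc x₁ x₂ x - cc x₁ x₂ y = (x - y) * (x₁ - x₂) / ((x - x₂) * (y - x₂)) := by
  have e1 : x - x₂ ≠ 0 := sub_ne_zero.mpr hx
  have e2 : y - x₂ ≠ 0 := sub_ne_zero.mpr hy
  rw [cc, cc]
  field_simp
  ring

lemma cc_ge {W x₁ x₂ x y : ℝ} (_hW : 1 ≤ W) (hx : 0 ≤ x ∧ x ≤ 1) (hy : 0 ≤ y ∧ y ≤ 1)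
    (hx₂ : 0 ≤ x₂ ∧ x₂ ≤ 1) (h12 : 1 ≤ W * |x₁ - x₂|) (h1 : 1 ≤ W * |x - x₂|)
    (h2 : 1 ≤ W * |y - x₂|) : |x - y| ≤ W * |cc x₁ x₂ x - cc x₁ x₂ y| := by
  have hpos : ∀ z : ℝ, 1 ≤ W * |z - x₂| → 0 < |z - x₂| := by
    intro z hz
    by_contra hc
    have : |z - x₂| = 0 := le_antisymm (not_lt.mp hc) (abs_nonneg _)
    rw [this] at hz
    linarith
  have p1 := hpos x h1
  have p2 := hpos y h2
  have b1 : |x - x₂| ≤ 1 := abs_le.mpr ⟨by linarith, by linarith⟩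
  have b2 : |y - x₂| ≤ 1 := abs_le.mpr ⟨by linarith, by linarith⟩
  rw [cc_diff (sub_ne_zero.mp (abs_pos.mp p1)) (sub_ne_zero.mp (abs_pos.mp p2)), abs_div, abs_mul,
    abs_mul, ← mul_div_assoc, le_div_iff₀ (by positivity)]
  have b3 : |x - x₂| * |y - x₂| ≤ 1 := by
    calc |x - x₂| * |y - x₂| ≤ 1 * 1 := by gcongr
      _ = 1 := one_mul 1
  calc |x - y| * (|x - x₂| * |y - x₂|) ≤ |x - y| * 1 := by gcongr
    _ ≤ |x - y| * (W * |x₁ - x₂|) := by gcongr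
    _ = W * (|x - y| * |x₁ - x₂|) := by ring

/-- Regularity of the multipliers. -/
lemma reg_cc {W L x₁ x₂ : ℝ} {C : Finset ℝ} (hR : 1 ≤ R) (_ha : 0 < a) (ha1 : a ≤ 1) (hK : 0 < K)
    (hreg : RegA a R K A) (hCA : C ⊆ A) (hW : 1 ≤ W) (hs : ∀ x ∈ A, 0 ≤ x ∧ x ≤ 1)
    (hx₂ : 0 ≤ x₂ ∧ x₂ ≤ 1) (h12 : 1 ≤ W * |x₁ - x₂|) (hC : ∀ x ∈ C, 1 ≤ W * |x - x₂|)
    (hL : 2 * W * K ≤ L) (c δ : ℝ) (hδ : 1 ≤ R * δ) :
    (((C.image (cc x₁ x₂)).filter fun c' => |c' - c| ≤ δ).card : ℝ) ≤ L * (R * δ) ^ a := by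
  have hR0 : 0 < R := by linarith
  have hδ0 : 0 < δ := by
    by_contra hc
    nlinarith
  have hL0 : 0 < L := lt_of_lt_of_le (by positivity) hL
  rcases ((C.image (cc x₁ x₂)).filter fun c' => |c' - c| ≤ δ).eq_empty_or_nonempty with he | ⟨c₀, hc₀⟩
  · rw [he, card_empty, Nat.cast_zero]
    positivity
  · rw [mem_filter, mem_image] at hc₀
    obtain ⟨⟨y, hy, rfl⟩, hyc⟩ := hc₀
    have h1 : ((C.image (cc x₁ x₂)).filter fun c' => |c' - c| ≤ δ).card ≤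
        (A.filter fun x => |x - y| ≤ (2 * W * (R * δ)) / R).card := by
      have : (C.image (cc x₁ x₂)).filter (fun c' => |c' - c| ≤ δ) ⊆
          (A.filter fun x => |x - y| ≤ (2 * W * (R * δ)) / R).image (cc x₁ x₂) := by
        intro c' hc'
        rw [mem_filter, mem_image] at hc'
        obtain ⟨⟨x, hx, rfl⟩, hxc⟩ := hc'
        refine mem_image.mpr ⟨x, mem_filter.mpr ⟨hCA hx, ?_⟩, rfl⟩
        have e1 := cc_ge hW (hs x (hCA hx)) (hs y (hCA hy)) hx₂ h12 (hC x hx) (hC y hy)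
        have e2 : |cc x₁ x₂ x - cc x₁ x₂ y| ≤ δ + δ := by
          calc |cc x₁ x₂ x - cc x₁ x₂ y| ≤ |cc x₁ x₂ x - c| + |c - cc x₁ x₂ y| :=
              abs_sub_le _ _ _
            _ ≤ δ + δ := by
              rw [abs_sub_comm c]
              gcongr
        calc |x - y| ≤ W * |cc x₁ x₂ x - cc x₁ x₂ y| := e1
          _ ≤ W * (δ + δ) := by gcongr
          _ = (2 * W * (R * δ)) / R := by field_simp; ring
      exact (card_le_card this).trans card_image_le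
    have h2 := hreg y (2 * W * (R * δ)) (by nlinarith)
    refine le_trans (by exact_mod_cast h1) (h2.trans ?_)
    rw [Real.mul_rpow (by positivity) (by positivity), ← mul_assoc]
    gcongr
    refine le_trans ?_ hL
    have : (2 * W) ^ a ≤ 2 * W := by
      calc (2 * W) ^ a ≤ (2 * W) ^ (1 : ℝ) :=
          Real.rpow_le_rpow_of_exponent_le (by linarith) ha1
        _ = 2 * W := Real.rpow_one _
    nlinarith

end XRL

open XRL in
lemma XRL.copy (hSel : StSel) (hEdge : StEdge) (hCls : StCls) (hBSG : StBSG) (hPop : StPop)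
    (hDil : StDil) (hNear : StNear) (hTri : StTri) (hAff : StAff)
    (a R K : ℝ) (N : ℕ) (A : Finset ℝ) (T : Finset (ℝ × ℝ)) (I : Finset ((ℝ × ℝ) × ℝ))
    (ha : 0 < a) (ha1 : a ≤ 1) (hN : 1 ≤ N) (haN : 1 ≤ a * N) (hK : 100 ≤ K)
    (hlog : Real.logb 2 R + 2 ≤ K) (hR : 1 ≤ R) (hKR : K ^ (100000 * N ^ 2) ≤ R ^ a)
    (h : Config a R K A T I) :
    ∃ (x₁ x₂ x₀ : ℝ) (C : Finset ℝ) (A₀ : Finset ℤ) (β Y : ℝ) (r : ℝ → ℤ),
      x₁ ∈ A ∧ x₂ ∈ A ∧ x₀ ∈ A ∧ C ⊆ A ∧ A₀ ⊆ PP T I x₁ ∧ 1 ≤ K ^ (10 * N) * |x₁ - x₂| ∧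
      1 ≤ K ^ (10 * N) * |x₀ - x₁| ∧ 1 ≤ K ^ (10 * N) * |x₀ - x₂| ∧
      (∀ x ∈ C, 1 ≤ K ^ (10 * N) * |x - x₁| ∧ 1 ≤ K ^ (10 * N) * |x - x₂| ∧
        ((dl (cc x₁ x₂ x) A₀ - dl (cc x₁ x₂ x₀) A₀).card : ℝ) ≤ K ^ (84480 * N) * R ^ a ∧
        r x ∈ A₀ ∧ |(r x : ℝ) - (β + Y * cc x₁ x₂ x)| ≤ 3 * K ^ (6600 * N)) ∧
      R ^ a ≤ (K ^ (6600 * N)) ^ 10 * (C.card : ℝ) ∧
      R ≤ 2 * K ^ (6600 * N) * K ^ (59400 * N ^ 2) * |Y| ∧
      R ^ a ≤ K ^ (660 * N) * (A₀.card : ℝ) := by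
  have hR0 : 0 < R := by linarith
  have hK1 : 1 ≤ K := by linarith
  have hK0 : 0 < K := by linarith
  have hN1 : (1 : ℝ) ≤ N := by exact_mod_cast hN
  have hkk : 1 ≤ R ^ a := Real.one_le_rpow hR ha.le
  have hkR : R ^ a ≤ R := by
    calc R ^ a ≤ R ^ (1 : ℝ) := Real.rpow_le_rpow_of_exponent_le hR ha1
      _ = R := Real.rpow_one R
  have hp : ∀ {m n : ℕ}, m ≤ n → K ^ m ≤ K ^ n := fun hmn => pow_le_pow_right₀ hK1 hmn
  have hNN : N ≤ N ^ 2 := by nlinarith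
  obtain ⟨W, hWdef⟩ : ∃ W, W = K ^ (10 * N) := ⟨_, rfl⟩
  have hW10 : K ^ 10 ≤ W := by rw [hWdef]; exact hp (by omega)
  have hWR : W ≤ R := by
    rw [hWdef]
    refine le_trans (hp ?_) (hKR.trans hkR)
    omega
  have hKW : K ≤ W := by
    refine le_trans ?_ hW10
    calc K = K ^ 1 := (pow_one K).symm
      _ ≤ K ^ 10 := hp (by norm_num)
  have hW1 : 1 ≤ W := hK1.trans hKW
  have hW0 : 0 < W := by linarith
  have hWa : K ^ 10 ≤ W ^ a := by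
    rw [hWdef, ← Real.rpow_natCast, ← Real.rpow_natCast, ← Real.rpow_mul hK0.le]
    refine Real.rpow_le_rpow_of_exponent_le hK1 ?_
    push_cast
    nlinarith
  obtain ⟨x₁, hx₁, x₂, hx₂, h12, X, hXA, hXc, hX⟩ := sel hSel h hR ha hK hW1 hWR hWa
  have hXne : X.Nonempty := by
    rw [nonempty_iff_ne_empty]
    rintro rfl
    rw [card_empty, Nat.cast_zero, mul_zero] at hXc
    linarith
  obtain ⟨x₀, hx₀, X₀, hX₀, A₀, hA₀, hX₀c, hA₀c, hX₀p⟩ := popular hEdge hCls hBSG hPop hDil h hR ha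
    ha1 hK hW10 hx₁ hx₂ h12 hXA hXne hX
  obtain ⟨k, hk⟩ : ∃ k, k = R ^ a := ⟨_, rfl⟩
  rw [← hk] at hXc hX hA₀c hX₀p hkk hkR hKR
  have hk0 : 0 < k := by linarith
  obtain ⟨L, hL⟩ : ∃ L, L = K ^ (6600 * N) := ⟨_, rfl⟩
  have hW66 : W ^ 66 = K ^ (660 * N) := by
    rw [hWdef, ← pow_mul]
    congr 1
    ring
  have hL10 : (W ^ 66) ^ 10 = L := by
    rw [hW66, hL, ← pow_mul]
    congr 1
    ring
  have hL9 : (W ^ 66) ^ 9 ≤ L := by
    rw [← hL10]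
    exact pow_le_pow_right₀ (one_le_pow₀ hW1) (by norm_num)
  have hKL : K ≤ L := by
    rw [hL]
    calc K = K ^ 1 := (pow_one K).symm
      _ ≤ K ^ (6600 * N) := hp (by omega)
  have hL100 : 100 ≤ L := hK.trans hKL
  have hL1 : 1 ≤ L := by linarith
  have hL0 : 0 < L := by linarith
  have hWL : W ≤ L := by
    rw [hL, hWdef]
    exact hp (by omega)
  have h4K : 4 * K ^ 8 ≤ W ^ 66 := by
    calc 4 * K ^ 8 ≤ K * K ^ 8 := by gcongr; linarith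
      _ = K ^ 9 := by ring
      _ ≤ K ^ (660 * N) := hp (by omega)
      _ = W ^ 66 := hW66.symm
  -- the parameter M
  obtain ⟨M, hM⟩ : ∃ M, M = K ^ (59400 * N ^ 2) := ⟨_, rfl⟩
  have hM1 : 1 ≤ M := by rw [hM]; exact one_le_pow₀ hK1
  have hM0 : 0 < M := by linarith
  have hMa : L ^ 9 ≤ M ^ a := by
    rw [hL, hM, ← pow_mul, ← Real.rpow_natCast, ← Real.rpow_natCast, ← Real.rpow_mul hK0.le]
    refine Real.rpow_le_rpow_of_exponent_le hK1 ?_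
    push_cast
    nlinarith
  have hLMR : 4 * L * M ≤ R := by
    calc 4 * L * M ≤ K * L * M := by gcongr; linarith
      _ = K ^ (1 + 6600 * N + 59400 * N ^ 2) := by rw [hL, hM, pow_add, pow_add, pow_one]
      _ ≤ K ^ (100000 * N ^ 2) := hp (by omega)
      _ ≤ R := hKR.trans hkR
  have hMR : M ≤ R := by
    refine le_trans ?_ hLMR
    nlinarith
  have hLk : 16 * L ^ 4 * K ^ 3 ≤ k := by
    calc 16 * L ^ 4 * K ^ 3 ≤ K * L ^ 4 * K ^ 3 := by gcongr; linarith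
      _ = K ^ (4 + 26400 * N) := by
        rw [hL, ← pow_mul, pow_add]
        ring
      _ ≤ K ^ (100000 * N ^ 2) := hp (by omega)
      _ ≤ k := hKR
  have hX₀A : X₀ ⊆ A := hX₀.trans hXA
  have hs := h.slope
  -- the triples
  obtain ⟨p₀, hp₀, y, hy, hcount⟩ := hTri L k (R / M) x₂ T X₀ (PP T I x₂) (GG T I x₁ x₂ A₀) hL1 hk0
    (by
      have := cardT h hR
      rw [← hk] at this
      exact this.trans (by gcongr))
    (by
      have := PP_le h hx₂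
      rw [← hk] at this
      exact this.trans (by gcongr))
    (by
      calc k ≤ 4 * K ^ 8 * (X.card : ℝ) := hXc
        _ ≤ W ^ 66 * ((W ^ 66) ^ 9 * (X₀.card : ℝ)) := by gcongr
        _ = L * (X₀.card : ℝ) := by rw [← hL10]; ring)
    (by
      intro x hx
      refine ⟨(filter_subset _ _).trans (filter_subset _ _), ?_, ?_, ?_⟩
      · exact (hX₀p x hx).2.trans (by gcongr)
      · have := cl_le h (hX₀A hx) (GG T I x₁ x₂ A₀ x)
          (fun p hp => (mem_filter.mp (mem_filter.mp hp).1).2.2.2)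
        rw [← hk] at this
        exact this.trans (by gcongr)
      · intro p hp
        have h1 := (mem_filter.mp (mem_filter.mp hp).1)
        exact mem_image.mpr ⟨p, mem_filter.mpr ⟨h1.1, h1.2.2.1⟩, rfl⟩)
    (by
      have h1 := hNear a R K M A T ha ha1 hM1 hMR hK hlog hs (by
        have := cardT h hR
        refine this.trans_eq ?_
        rw [← Real.rpow_natCast, ← Real.rpow_mul hR0.le]
        congr 2
        push_cast
        ring) (regA h) (regT h)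
      have h2 : ((((T ×ˢ T) ×ˢ X₀).filter fun z => |z.1.1.1 - z.1.2.1| < R / M ∧
          |bb z.2 z.1.1 - bb z.2 z.1.2| < 1).card : ℝ) ≤
          ((((T ×ˢ T) ×ˢ A).filter fun z => |z.1.1.1 - z.1.2.1| < R / M ∧
          |bb z.2 z.1.1 - bb z.2 z.1.2| < 1).card : ℝ) := by
        refine Nat.cast_le.mpr (card_le_card ?_)
        intro z hz
        rw [mem_filter, mem_product] at hz ⊢
        exact ⟨⟨hz.1.1, hX₀A hz.1.2⟩, hz.2⟩
      have e4 : R ^ (4 * a) = k ^ 4 := by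
        rw [hk, ← Real.rpow_natCast, ← Real.rpow_mul hR0.le]
        congr 1
        push_cast
        ring
      have e3 : R ^ (3 * a) = k ^ 3 := by
        rw [hk, ← Real.rpow_natCast, ← Real.rpow_mul hR0.le]
        congr 1
        push_cast
        ring
      rw [e4, e3] at h1
      have h3 : 16 * K ^ 4 * k ^ 4 / M ^ a ≤ k ^ 4 / (4 * L ^ 4) := by
        rw [div_le_div_iff₀ (Real.rpow_pos_of_pos hM0 a) (by positivity)]
        calc 16 * K ^ 4 * k ^ 4 * (4 * L ^ 4) = (64 * K ^ 4) * L ^ 4 * k ^ 4 := by ring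
          _ ≤ (L * L ^ 4) * L ^ 4 * k ^ 4 := by
            gcongr
            linarith
          _ = k ^ 4 * L ^ 9 := by ring
          _ ≤ k ^ 4 * M ^ a := by gcongr
      have h4 : 4 * K ^ 3 * k ^ 3 ≤ k ^ 4 / (4 * L ^ 4) := by
        rw [le_div_iff₀ (by positivity)]
        calc 4 * K ^ 3 * k ^ 3 * (4 * L ^ 4) = (16 * L ^ 4 * K ^ 3) * k ^ 3 := by ring
          _ ≤ k * k ^ 3 := by gcongr
          _ = k ^ 4 := by ring
      calc 2 * L ^ 4 * _ ≤ 2 * L ^ 4 * (k ^ 4 / (4 * L ^ 4) + k ^ 4 / (4 * L ^ 4)) := by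
            gcongr
            exact (h2.trans h1).trans (add_le_add h3 h4)
        _ = k ^ 4 := by field_simp; norm_num)
  -- the affine copy
  have hX₀' : ∀ x ∈ X₀, 1 ≤ W * |x - x₁| ∧ 1 ≤ W * |x - x₂| := fun x hx =>
    ⟨(hX x (hX₀ hx)).1, (hX x (hX₀ hx)).2.1⟩
  obtain ⟨β, Y, r, C, hC, hCc, hY, hr⟩ := hAff a L k (R / M) x₁ x₂ T X₀ A₀ (GG T I x₁ x₂ A₀) p₀ y
    ha ha1 hL100 hk0 (by rw [le_div_iff₀ hM0]; exact hLMR) (hs x₁ hx₁).1 (hs x₁ hx₁).2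
    (hs x₂ hx₂).1 (hs x₂ hx₂).2 (h12.trans (by gcongr))
    (fun x hx => ⟨(hs x (hX₀A hx)).1, (hs x (hX₀A hx)).2, (hX₀' x hx).1.trans (by gcongr),
      (hX₀' x hx).2.trans (by gcongr), (filter_subset _ _).trans (filter_subset _ _),
      fun p hp => (mem_filter.mp hp).2⟩)
    (fun q r hr => (h.regT q r hr).trans (by gcongr)) hcount
  have hL4 : ((W ^ 66) ^ 8) ^ 16 = K ^ (84480 * N) := by
    rw [hW66, ← pow_mul, ← pow_mul]
    congr 1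
    ring
  rw [div_le_iff₀ hM0] at hY
  rw [← hWdef, ← hk, ← hL, ← hM, ← hW66, ← hL4]
  refine ⟨x₁, x₂, x₀, C, A₀, β, Y, r, hx₁, hx₂, hXA hx₀, hC.trans hX₀A, hA₀, h12, (hX x₀ hx₀).1,
    (hX x₀ hx₀).2.1, fun x hx => ⟨(hX₀' x (hC hx)).1, (hX₀' x (hC hx)).2, (hX₀p x (hC hx)).1,
      (hr x hx).1, (hr x hx).2⟩, hCc, ?_, hA₀c⟩
  calc R ≤ 2 * L * |Y| * M := hY
    _ = 2 * L * M * |Y| := by ring

end Pool.Agent.Work.MP_e17eac_co.RING
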