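import Pool.Agent.Work.MP_e17eac_co.Bd.B03

/-!
# Ring module: item AFF, an affine copy of the multipliers
-/

set_option autoImplicit false

namespace Pool.Agent.Work.MP_e17eac_co.RING

open Finset

namespace XAFF

theorem bb_sub (x x' : ℝ) (q : ℝ × ℝ) : bb x' q - bb x q = (x - x') * q.1 := by
  unfold bb; ring

/-- two cells in the same classes for `x` and `x₂` are near each other -/
theorem near {L x x₂ : ℝ} {p p' : ℝ × ℝ} (hL : 100 ≤ L) (hx0 : 0 ≤ x) (hx1 : x ≤ 1)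
    (h2 : 1 ≤ L * |x - x₂|) (e1 : |bb x p - bb x p'| < 1) (e2 : |bb x₂ p - bb x₂ p'| < 1) :
    |p.1 - p'.1| ≤ 3 * L ∧ |p.2 - p'.2| ≤ 3 * L := by
  have hL0 : 0 < L := by linarith
  have h3 : |x - x₂| * |p.1 - p'.1| ≤ 2 := by
    rw [← abs_mul]
    have h4 : (x - x₂) * (p.1 - p'.1) = (bb x₂ p - bb x₂ p') - (bb x p - bb x p') := by
      unfold bb; ring
    rw [h4]
    have := abs_sub (bb x₂ p - bb x₂ p') (bb x p - bb x p')
    linarith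
  have h5 : |p.1 - p'.1| ≤ 2 * L := by
    have h6 : |p.1 - p'.1| * 1 ≤ |p.1 - p'.1| * (L * |x - x₂|) :=
      mul_le_mul_of_nonneg_left h2 (abs_nonneg _)
    have h7 : L * (|x - x₂| * |p.1 - p'.1|) ≤ L * 2 := mul_le_mul_of_nonneg_left h3 hL0.le
    linarith
  refine ⟨by linarith, ?_⟩
  have h8 : p.2 - p'.2 = (bb x p - bb x p') + x * (p.1 - p'.1) := by unfold bb; ring
  rw [h8]
  have h9 : |x * (p.1 - p'.1)| ≤ 2 * L := by
    rw [abs_mul, abs_of_nonneg hx0]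
    have : x * |p.1 - p'.1| ≤ 1 * |p.1 - p'.1| := mul_le_mul_of_nonneg_right hx1 (abs_nonneg _)
    linarith
  have := abs_add_le (bb x p - bb x p') (x * (p.1 - p'.1))
  linarith

theorem fib {a L : ℝ} {T S : Finset (ℝ × ℝ)} (ha1 : a ≤ 1) (hL : 100 ≤ L)
    (hT : RegT a L T) (hS : S ⊆ T)
    (hn : ∀ p ∈ S, ∀ p' ∈ S, |p.1 - p'.1| ≤ 3 * L ∧ |p.2 - p'.2| ≤ 3 * L) :
    (S.card : ℝ) ≤ 9 * L ^ 3 := by
  classical
  have hL0 : 0 < L := by linarith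
  rcases S.eq_empty_or_nonempty with h | ⟨q, hq⟩
  · rw [h, Finset.card_empty]; push_cast; positivity
  have h1 := hT q (3 * L) (by linarith)
  have h2 : S ⊆ T.filter fun p => |p.1 - q.1| ≤ 3 * L ∧ |p.2 - q.2| ≤ 3 * L := by
    intro p hp
    exact Finset.mem_filter.2 ⟨hS hp, hn p hp q hq⟩
  have h3 := (Nat.cast_le (α := ℝ)).2 (Finset.card_le_card h2)
  have h4 : (3 * L) ^ (2 * a) ≤ (3 * L) ^ (2 : ℝ) :=
    Real.rpow_le_rpow_of_exponent_le (by linarith) (by linarith)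
  rw [Real.rpow_two] at h4
  have h5 : L * (3 * L) ^ (2 * a) ≤ L * (3 * L) ^ 2 := mul_le_mul_of_nonneg_left h4 hL0.le
  have h6 : L * (3 * L) ^ 2 = 9 * L ^ 3 := by ring
  linarith

theorem quot_le {L u v : ℝ} (hu : |u| ≤ 1) (hv : 1 ≤ L * |v|) : |u / v| ≤ L := by
  have hv0 : 0 < |v| := by
    rcases (abs_nonneg v).lt_or_eq with h | h
    · exact h
    · rw [← h, mul_zero] at hv; linarith
  rw [abs_div, div_le_iff₀ hv0]
  linarith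

theorem lam_eq {x x₁ x₂ : ℝ} (h : x - x₂ ≠ 0) (u v : ℝ) :
    (v - x₁ * u) - (x - x₁) / (x - x₂) * (v - x₂ * u) =
      (x₁ - x₂) / (x - x₂) * (v - x * u) := by
  field_simp
  ring

theorem split {x x₁ x₂ : ℝ} (h : x - x₂ ≠ 0) (f y : ℝ) (p p₀ : ℝ × ℝ) :
    f - (bb x₁ p₀ + (y - bb x₂ p₀) * cc x₁ x₂ x) =
      (f - bb x₁ p) - cc x₁ x₂ x * (y - bb x₂ p) +
        (x₁ - x₂) / (x - x₂) * (bb x p - bb x p₀) := by
  have h1 := lam_eq (x₁ := x₁) h (p.1 - p₀.1) (p.2 - p₀.2)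
  unfold bb cc
  linear_combination h1

end XAFF

namespace XAFF

/-- the item for an abstract set `Z` -/
theorem core {a L k d x₁ x₂ : ℝ} {T : Finset (ℝ × ℝ)} {X₀ : Finset ℝ} {A₀ : Finset ℤ}
    {G : ℝ → Finset (ℝ × ℝ)} {p₀ : ℝ × ℝ} {y : ℤ} (ha1 : a ≤ 1) (hL : 100 ≤ L) (hk : 0 < k)
    (hd : 4 * L ≤ d) (h10 : 0 ≤ x₁) (h11 : x₁ ≤ 1) (h20 : 0 ≤ x₂) (h21 : x₂ ≤ 1)
    (hX : ∀ x ∈ X₀, 0 ≤ x ∧ x ≤ 1 ∧ 1 ≤ L * |x - x₁| ∧ 1 ≤ L * |x - x₂| ∧ G x ⊆ T ∧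
      ∀ p ∈ G x, ⌊bb x₁ p⌋ ∈ A₀) (hT : RegT a L T) (Z : Finset ((ℝ × ℝ) × ℝ))
    (hmem : ∀ z ∈ Z, z.1 ∈ T ∧ z.2 ∈ X₀ ∧ z.1 ∈ G z.2 ∧ ⌊bb z.2 z.1⌋ = ⌊bb z.2 p₀⌋ ∧
      d ≤ |z.1.1 - p₀.1| ∧ ⌊bb x₂ z.1⌋ = y) (hZ : k ≤ 2 * L ^ 6 * (Z.card : ℝ)) :
    ∃ (β Y : ℝ) (r : ℝ → ℤ), ∃ C ⊆ X₀, k ≤ L ^ 10 * (C.card : ℝ) ∧ d ≤ 2 * L * |Y| ∧
      ∀ x ∈ C, r x ∈ A₀ ∧ |(r x : ℝ) - (β + Y * cc x₁ x₂ x)| ≤ 3 * L := by
  classical
  have hL0 : 0 < L := by linarith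
  have hne : Z.Nonempty := by
    rw [← Finset.card_pos]
    by_contra h
    have h0 : Z.card = 0 := by omega
    rw [h0, Nat.cast_zero, mul_zero] at hZ
    linarith
  let C : Finset ℝ := Z.image fun z => z.2
  have hC : ∀ x ∈ C, ∃ p : ℝ × ℝ, (p, x) ∈ Z := by
    intro x hx
    obtain ⟨z, hz, rfl⟩ := Finset.mem_image.1 hx
    exact ⟨z.1, hz⟩
  choose! P hP using hC
  -- multiplicity
  have hcard : (Z.card : ℝ) ≤ 9 * L ^ 3 * (C.card : ℝ) := by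
    have h1 : Z.card ≤ ⌊9 * L ^ 3⌋₊ * C.card := by
      refine Finset.card_le_mul_card_image Z _ fun x _ => ?_
      apply Nat.le_floor
      have h2 : ((Z.filter fun z => z.2 = x).image fun z => z.1).card =
          (Z.filter fun z => z.2 = x).card := by
        apply Finset.card_image_of_injOn
        intro z hz z' hz' h
        rw [Finset.coe_filter] at hz hz'
        exact Prod.ext h (hz.2.trans hz'.2.symm)
      rw [← h2]
      apply XAFF.fib ha1 hL hT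
      · intro p hp
        obtain ⟨z, hz, rfl⟩ := Finset.mem_image.1 hp
        exact (hmem z (Finset.mem_filter.1 hz).1).1
      · intro p hp p' hp'
        obtain ⟨z, hz, rfl⟩ := Finset.mem_image.1 hp
        obtain ⟨z', hz', rfl⟩ := Finset.mem_image.1 hp'
        obtain ⟨hz1, hz2⟩ := Finset.mem_filter.1 hz
        obtain ⟨hz1', hz2'⟩ := Finset.mem_filter.1 hz'
        have m := hmem z hz1
        have m' := hmem z' hz1'
        have g := hX z.2 m.2.1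
        refine XAFF.near (x := z.2) (x₂ := x₂) hL g.1 g.2.1 g.2.2.2.1 ?_ ?_
        · apply Int.abs_sub_lt_one_of_floor_eq_floor
          rw [m.2.2.2.1]
          have h3 := m'.2.2.2.1
          rw [hz2', ← hz2] at h3
          exact h3.symm
        · apply Int.abs_sub_lt_one_of_floor_eq_floor
          rw [m.2.2.2.2.2, m'.2.2.2.2.2]
    calc (Z.card : ℝ) ≤ ((⌊9 * L ^ 3⌋₊ * C.card : ℕ) : ℝ) := by exact_mod_cast h1
      _ = (⌊9 * L ^ 3⌋₊ : ℝ) * C.card := by push_cast; ring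
      _ ≤ 9 * L ^ 3 * (C.card : ℝ) :=
        mul_le_mul_of_nonneg_right (Nat.floor_le (by positivity)) (Nat.cast_nonneg _)
  refine ⟨bb x₁ p₀, (y : ℝ) - bb x₂ p₀, fun x => ⌊bb x₁ (P x)⌋, C, ?_, ?_, ?_, ?_⟩
  · intro x hx
    exact (hmem _ (hP x hx)).2.1
  · have h1 : 2 * L ^ 6 * (Z.card : ℝ) ≤ 2 * L ^ 6 * (9 * L ^ 3 * (C.card : ℝ)) :=
      mul_le_mul_of_nonneg_left hcard (by positivity)
    have h2 : 2 * L ^ 6 * (9 * L ^ 3 * (C.card : ℝ)) = 18 * (L ^ 9 * (C.card : ℝ)) := by ring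
    have h3 : L ^ 10 * (C.card : ℝ) = L * (L ^ 9 * (C.card : ℝ)) := by ring
    have h4 : 18 * (L ^ 9 * (C.card : ℝ)) ≤ L * (L ^ 9 * (C.card : ℝ)) :=
      mul_le_mul_of_nonneg_right (by linarith) (by positivity)
    linarith
  · obtain ⟨z, hz⟩ := hne
    have m := hmem z hz
    have g := hX z.2 m.2.1
    have e1 : |bb z.2 z.1 - bb z.2 p₀| < 1 := Int.abs_sub_lt_one_of_floor_eq_floor m.2.2.2.1
    have e2 : |(y : ℝ) - bb x₂ z.1| ≤ 1 := by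
      rw [← m.2.2.2.2.2, abs_le]
      have f1 := Int.floor_le (bb x₂ z.1)
      have f2 := Int.lt_floor_add_one (bb x₂ z.1)
      constructor <;> linarith
    have e3 : (z.2 - x₂) * (z.1.1 - p₀.1) =
        ((y : ℝ) - bb x₂ p₀) - ((y : ℝ) - bb x₂ z.1) - (bb z.2 z.1 - bb z.2 p₀) := by
      unfold bb; ring
    have e4 : |z.2 - x₂| * |z.1.1 - p₀.1| ≤ |(y : ℝ) - bb x₂ p₀| + 2 := by
      rw [← abs_mul, e3]
      have i1 := abs_sub (((y : ℝ) - bb x₂ p₀) - ((y : ℝ) - bb x₂ z.1)) (bb z.2 z.1 - bb z.2 p₀)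
      have i2 := abs_sub ((y : ℝ) - bb x₂ p₀) ((y : ℝ) - bb x₂ z.1)
      linarith
    have e5 : d ≤ L * (|z.2 - x₂| * |z.1.1 - p₀.1|) := by
      have i1 : |z.1.1 - p₀.1| * 1 ≤ |z.1.1 - p₀.1| * (L * |z.2 - x₂|) :=
        mul_le_mul_of_nonneg_left g.2.2.2.1 (abs_nonneg _)
      have i2 := m.2.2.2.2.1
      linarith
    have e6 : L * (|z.2 - x₂| * |z.1.1 - p₀.1|) ≤ L * (|(y : ℝ) - bb x₂ p₀| + 2) :=
      mul_le_mul_of_nonneg_left e4 hL0.le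
    linarith
  · intro x hx
    have m := hmem _ (hP x hx)
    have g := hX x m.2.1
    refine ⟨g.2.2.2.2.2 _ m.2.2.1, ?_⟩
    have e1 : |bb x (P x) - bb x p₀| < 1 := Int.abs_sub_lt_one_of_floor_eq_floor m.2.2.2.1
    have e2 : |(y : ℝ) - bb x₂ (P x)| ≤ 1 := by
      rw [← m.2.2.2.2.2, abs_le]
      have f1 := Int.floor_le (bb x₂ (P x))
      have f2 := Int.lt_floor_add_one (bb x₂ (P x))
      constructor <;> linarith
    have e3 : |((⌊bb x₁ (P x)⌋ : ℤ) : ℝ) - bb x₁ (P x)| ≤ 1 := by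
      rw [abs_le]
      have f1 := Int.floor_le (bb x₁ (P x))
      have f2 := Int.lt_floor_add_one (bb x₁ (P x))
      constructor <;> linarith
    have hxx : x - x₂ ≠ 0 := by
      intro h
      have := g.2.2.2.1
      rw [h, abs_zero, mul_zero] at this
      linarith
    have c1 : |cc x₁ x₂ x| ≤ L := by
      unfold cc
      apply XAFF.quot_le _ g.2.2.2.1
      rw [abs_le]
      constructor <;> linarith [g.1, g.2.1]
    have c2 : |(x₁ - x₂) / (x - x₂)| ≤ L := by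
      apply XAFF.quot_le _ g.2.2.2.1
      rw [abs_le]
      constructor <;> linarith
    have e4 : ((⌊bb x₁ (P x)⌋ : ℤ) : ℝ) - (bb x₁ p₀ + ((y : ℝ) - bb x₂ p₀) * cc x₁ x₂ x) =
        (((⌊bb x₁ (P x)⌋ : ℤ) : ℝ) - bb x₁ (P x)) - cc x₁ x₂ x * ((y : ℝ) - bb x₂ (P x)) +
          (x₁ - x₂) / (x - x₂) * (bb x (P x) - bb x p₀) := XAFF.split hxx _ _ _ _
    rw [e4]
    have t1 : |cc x₁ x₂ x * ((y : ℝ) - bb x₂ (P x))| ≤ L * 1 := by
      rw [abs_mul]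
      exact mul_le_mul c1 e2 (abs_nonneg _) hL0.le
    have t2 : |(x₁ - x₂) / (x - x₂) * (bb x (P x) - bb x p₀)| ≤ L * 1 := by
      rw [abs_mul]
      exact mul_le_mul c2 e1.le (abs_nonneg _) hL0.le
    have i1 := abs_add_le ((((⌊bb x₁ (P x)⌋ : ℤ) : ℝ) - bb x₁ (P x)) -
      cc x₁ x₂ x * ((y : ℝ) - bb x₂ (P x))) ((x₁ - x₂) / (x - x₂) * (bb x (P x) - bb x p₀))
    have i2 := abs_sub (((⌊bb x₁ (P x)⌋ : ℤ) : ℝ) - bb x₁ (P x))
      (cc x₁ x₂ x * ((y : ℝ) - bb x₂ (P x)))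
    linarith

end XAFF

theorem I_AFF : StAff := by
  intro a L k d x₁ x₂ T X₀ A₀ G p₀ y ha ha1 hL hk hd h10 h11 h20 h21 h12 hX hT hZ
  refine XAFF.core (p₀ := p₀) (y := y) ha1 hL hk hd h10 h11 h20 h21 hX hT _ ?_ hZ
  intro z hz
  rw [Finset.mem_filter, Finset.mem_product] at hz
  exact ⟨hz.1.1, hz.1.2, hz.2.1, hz.2.2.2.1, hz.2.2.2.2.1, hz.2.2.2.2.2⟩

end Pool.Agent.Work.MP_e17eac_co.RING
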