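import Pool.Agent.Work.MP_e17eac_co.Bd.B03
import Pool.Agent.Work.MP_f39168_co.SD.Graph

set_option autoImplicit false

namespace Pool.Agent.Work.MP_e17eac_co.RING

open Finset

namespace XBSG

lemma card_int (Q : Finset ℤ) (L : ℝ) (hL : 0 ≤ L)
    (h : ∀ v ∈ Q, ∀ v' ∈ Q, ((v : ℝ) - (v' : ℝ)) ≤ L) : Q.card ≤ ⌊L⌋₊ + 1 := by
  rcases Q.eq_empty_or_nonempty with rfl | hQ
  · simp
  · have hsub : Q ⊆ Finset.Icc (Q.min' hQ) (Q.min' hQ + (⌊L⌋₊ : ℤ)) := by
      intro v hv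
      rw [Finset.mem_Icc]
      refine ⟨Finset.min'_le _ _ hv, ?_⟩
      have h1 := h v hv _ (Finset.min'_mem Q hQ)
      have h2 : ((v - Q.min' hQ : ℤ) : ℝ) ≤ L := by push_cast; exact h1
      have h3 : v - Q.min' hQ ≤ ⌊L⌋ := Int.le_floor.2 h2
      have h4 : ((⌊L⌋₊ : ℕ) : ℤ) = ⌊L⌋ := Int.natCast_floor_eq_floor hL
      omega
    refine (Finset.card_le_card hsub).trans ?_
    rw [Int.card_Icc]
    omega

/-- The image of the paths determines the path up to few choices. -/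
lemma paths_le (L c : ℝ) (hL : 1 ≤ L) (hc : 1 ≤ L * |c|) (u v : ℤ) (P : Finset (ℤ × ℤ)) :
    P.card ≤ (⌊L⌋₊ + 1) * (P.image fun z : ℤ × ℤ =>
      ((⌊(u : ℝ) - c * (z.2 : ℝ)⌋, ⌊(z.1 : ℝ) - c * (z.2 : ℝ)⌋, ⌊(z.1 : ℝ) - c * (v : ℝ)⌋) :
        ℤ × ℤ × ℤ)).card := by
  refine Finset.card_le_mul_card_image P _ ?_
  intro t _
  have hc0 : 0 < |c| := by
    by_contra hcon
    have : |c| = 0 := le_antisymm (not_lt.1 hcon) (abs_nonneg c)
    rw [this, mul_zero] at hc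
    linarith
  set Fb := P.filter (fun z : ℤ × ℤ =>
      ((⌊(u : ℝ) - c * (z.2 : ℝ)⌋, ⌊(z.1 : ℝ) - c * (z.2 : ℝ)⌋, ⌊(z.1 : ℝ) - c * (v : ℝ)⌋) :
        ℤ × ℤ × ℤ) = t) with hFb
  have hmem : ∀ z ∈ Fb, ⌊(u : ℝ) - c * (z.2 : ℝ)⌋ = t.1 ∧ ⌊(z.1 : ℝ) - c * (v : ℝ)⌋ = t.2.2 := by
    intro z hz
    rw [hFb, Finset.mem_filter] at hz
    have h := hz.2
    exact ⟨by rw [← h], by rw [← h]⟩
  have hinj : Set.InjOn (fun z : ℤ × ℤ => z.2) (Fb : Set (ℤ × ℤ)) := by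
    intro z hz w hw hzw
    have hz' := (hmem z hz).2
    have hw' := (hmem w hw).2
    have e : ∀ x : ℤ, ⌊(x : ℝ) - c * (v : ℝ)⌋ = x + ⌊-(c * (v : ℝ))⌋ := by
      intro x
      rw [sub_eq_add_neg, Int.floor_intCast_add]
    rw [e] at hz' hw'
    have h1 : z.1 = w.1 := by omega
    exact Prod.ext h1 hzw
  rw [← Finset.card_image_of_injOn hinj]
  refine card_int _ L (by linarith) ?_
  intro a ha b hb
  rw [Finset.mem_image] at ha hb
  obtain ⟨z, hz, rfl⟩ := ha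
  obtain ⟨w, hw, rfl⟩ := hb
  have hz' := (hmem z hz).1
  have hw' := (hmem w hw).1
  rw [Int.floor_eq_iff] at hz' hw'
  have h1 : |c * ((z.2 : ℝ) - (w.2 : ℝ))| ≤ 1 := by
    rw [abs_le]
    constructor <;> nlinarith [hz'.1, hz'.2, hw'.1, hw'.2]
  rw [abs_mul] at h1
  have h2 : (z.2 : ℝ) - (w.2 : ℝ) ≤ |(z.2 : ℝ) - (w.2 : ℝ)| := le_abs_self _
  have h3 : |(z.2 : ℝ) - (w.2 : ℝ)| ≤ L := by
    by_contra hcon
    have hcon' : L < |(z.2 : ℝ) - (w.2 : ℝ)| := not_le.1 hcon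
    have : L * |c| < |(z.2 : ℝ) - (w.2 : ℝ)| * |c| := by
      exact mul_lt_mul_of_pos_right hcon' hc0
    nlinarith
  exact h2.trans h3

lemma floor_three (c : ℝ) (u v u1 v1 : ℤ) :
    -1 ≤ ⌊(u : ℝ) - c * v⌋ - (⌊(u : ℝ) - c * v1⌋ - ⌊(u1 : ℝ) - c * v1⌋ + ⌊(u1 : ℝ) - c * v⌋) ∧
    ⌊(u : ℝ) - c * v⌋ - (⌊(u : ℝ) - c * v1⌋ - ⌊(u1 : ℝ) - c * v1⌋ + ⌊(u1 : ℝ) - c * v⌋) ≤ 1 := by
  have a1 := Int.floor_le ((u : ℝ) - c * v)
  have a2 := Int.lt_floor_add_one ((u : ℝ) - c * v)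
  have b1 := Int.floor_le ((u : ℝ) - c * v1)
  have b2 := Int.lt_floor_add_one ((u : ℝ) - c * v1)
  have c1 := Int.floor_le ((u1 : ℝ) - c * v1)
  have c2 := Int.lt_floor_add_one ((u1 : ℝ) - c * v1)
  have d1 := Int.floor_le ((u1 : ℝ) - c * v)
  have d2 := Int.lt_floor_add_one ((u1 : ℝ) - c * v)
  generalize ⌊(u : ℝ) - c * v⌋ = w at *
  generalize ⌊(u : ℝ) - c * v1⌋ = X at *
  generalize ⌊(u1 : ℝ) - c * v1⌋ = Y at *
  generalize ⌊(u1 : ℝ) - c * v⌋ = Z at *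
  constructor
  · have : (-2 : ℝ) < ((w - (X - Y + Z) : ℤ) : ℝ) := by push_cast; linarith
    have h2 : (-2 : ℤ) < w - (X - Y + Z) := by exact_mod_cast this
    omega
  · have : ((w - (X - Y + Z) : ℤ) : ℝ) < (2 : ℝ) := by push_cast; linarith
    have h2 : w - (X - Y + Z) < (2 : ℤ) := by exact_mod_cast this
    omega

/-- The double counting. -/
lemma double_count (W : Finset ℤ) (S3 : Finset (ℤ × ℤ × ℤ)) (T : ℤ → Finset (ℤ × ℤ × ℤ)) (q : ℝ)
    (hT : ∀ w ∈ W, T w ⊆ S3)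
    (h3 : ∀ w ∈ W, ∀ s ∈ T w, -1 ≤ w - (s.1 - s.2.1 + s.2.2) ∧ w - (s.1 - s.2.1 + s.2.2) ≤ 1)
    (hq : ∀ w ∈ W, q ≤ ((T w).card : ℝ)) :
    (W.card : ℝ) * q ≤ 3 * (S3.card : ℝ) := by
  have h1 : (W.card : ℝ) * q ≤ ∑ w ∈ W, ((T w).card : ℝ) := by
    rw [← nsmul_eq_mul, ← Finset.sum_const]
    exact Finset.sum_le_sum hq
  have h2 : ∑ w ∈ W, ((T w).card : ℝ) = ∑ s ∈ S3, ((W.filter fun w => s ∈ T w).card : ℝ) := by
    have e1 : ∀ w ∈ W, ((T w).card : ℝ) = ∑ s ∈ S3, if s ∈ T w then (1 : ℝ) else 0 := by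
      intro w hw
      rw [← Finset.sum_filter, Finset.sum_const, nsmul_eq_mul, mul_one]
      congr 2
      ext s
      simp only [Finset.mem_filter]
      exact ⟨fun h => ⟨hT w hw h, h⟩, fun h => h.2⟩
    rw [Finset.sum_congr rfl e1, Finset.sum_comm]
    refine Finset.sum_congr rfl fun s _ => ?_
    rw [← Finset.sum_filter, Finset.sum_const, nsmul_eq_mul, mul_one]
  have h4 : ∑ s ∈ S3, ((W.filter fun w => s ∈ T w).card : ℝ) ≤ ∑ s ∈ S3, (3 : ℝ) := by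
    refine Finset.sum_le_sum fun s _ => ?_
    have hsub : (W.filter fun w => s ∈ T w) ⊆
        Finset.Icc (s.1 - s.2.1 + s.2.2 - 1) (s.1 - s.2.1 + s.2.2 + 1) := by
      intro w hw
      rw [Finset.mem_filter] at hw
      have := h3 w hw.1 s hw.2
      rw [Finset.mem_Icc]
      constructor <;> linarith [this.1, this.2]
    have hc := Finset.card_le_card hsub
    rw [Int.card_Icc] at hc
    have hc' : (W.filter fun w => s ∈ T w).card ≤ 3 := by
      refine hc.trans ?_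
      omega
    exact_mod_cast hc'
  rw [Finset.sum_const, nsmul_eq_mul] at h4
  linarith

end XBSG

open XBSG in
theorem I_BSG : StBSG := by
  classical
  intro L k c U V E hL hk hcL hc hE hU hV hkE hS
  have hk0 : 0 < k := by linarith
  have hL0 : 0 < L := by linarith
  have hE0 : 0 < (E.card : ℝ) := by
    have : 0 < k ^ 2 := by positivity
    by_contra hcon
    have hz : (E.card : ℝ) = 0 := le_antisymm (not_lt.1 hcon) (Nat.cast_nonneg _)
    rw [hz, mul_zero] at hkE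
    linarith
  have hEne : E.Nonempty := by
    rw [← Finset.card_pos]
    exact_mod_cast hE0
  set A := U ∪ V with hA
  have hAne : A.Nonempty := by
    obtain ⟨z, hz⟩ := hEne
    have := Finset.mem_product.1 (hE hz)
    exact ⟨z.1, Finset.mem_union_left _ this.1⟩
  have hA0 : 0 < (A.card : ℝ) := by exact_mod_cast hAne.card_pos
  have hA2 : (A.card : ℝ) ≤ 2 * L * k := by
    have : (A.card : ℝ) ≤ (U.card : ℝ) + (V.card : ℝ) := by
      exact_mod_cast Finset.card_union_le U V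
    linarith
  set n : ℝ := (A.card : ℝ) with hn
  set α : ℝ := k ^ 2 / (L * n ^ 2) with hα
  have hα0 : 0 < α := by positivity
  have hαn : α * n ^ 2 = k ^ 2 / L := by
    rw [hα]; field_simp
  have hsum : α * (A.card : ℝ) ^ 2 ≤ ∑ a ∈ A, ((A.filter fun b => (a, b) ∈ E).card : ℝ) := by
    rw [← hn, hαn]
    have h1 : (E.card : ℝ) ≤ ∑ a ∈ A, ((A.filter fun b => (a, b) ∈ E).card : ℝ) := by
      have h2 : E.card = ∑ a ∈ A, (E.filter fun z => z.1 = a).card :=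
        Finset.card_eq_sum_card_fiberwise (f := fun z : ℤ × ℤ => z.1) (fun z hz => by
          have := Finset.mem_product.1 (hE hz)
          exact Finset.mem_coe.2 (Finset.mem_union_left _ this.1))
      rw [h2]
      push_cast
      refine Finset.sum_le_sum fun a _ => ?_
      have h3 : (E.filter fun z => z.1 = a).card ≤ (A.filter fun b => (a, b) ∈ E).card := by
        refine Finset.card_le_card_of_injOn (fun z : ℤ × ℤ => z.2) ?_ ?_
        · intro z hz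
          have hz' := Finset.mem_filter.1 (Finset.mem_coe.1 hz)
          have hz2 := Finset.mem_product.1 (hE hz'.1)
          refine Finset.mem_coe.2 (Finset.mem_filter.2 ⟨Finset.mem_union_right _ hz2.2, ?_⟩)
          have : (a, z.2) = z := by
            rw [← hz'.2]
          rw [this]
          exact hz'.1
        · intro z hz w hw hzw
          have hz' := Finset.mem_filter.1 (Finset.mem_coe.1 hz)
          have hw' := Finset.mem_filter.1 (Finset.mem_coe.1 hw)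
          exact Prod.ext (hz'.2.trans hw'.2.symm) hzw
      exact_mod_cast h3
    have h4 : k ^ 2 / L ≤ (E.card : ℝ) := by
      rw [div_le_iff₀ hL0]
      linarith
    linarith
  obtain ⟨A', hA'A, B', hB'A, hA'c, hB'c, hpath⟩ :=
    Pool.Agent.F39168.SD.exists_paths A (fun a b => (a, b) ∈ E) hAne hα0 (by convert hsum)
  rw [← hn] at hA'c hB'c
  have hαn1 : k ≤ 2 * L ^ 2 * (α * n) := by
    have e : α * n = k ^ 2 / (L * n) := by rw [hα]; field_simp
    rw [e, ← mul_div_assoc, le_div_iff₀ (by positivity)]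
    nlinarith [mul_le_mul_of_nonneg_left hA2 (show 0 ≤ k * L by positivity)]
  have hLpow : 12 * L ^ 2 ≤ L ^ 22 := by
    have h1 : (1 : ℝ) ≤ L ^ 19 := one_le_pow₀ (by linarith)
    have h2 : L ^ 22 = L ^ 19 * L * L ^ 2 := by ring
    rw [h2]
    have h3 : 12 ≤ L ^ 19 * L := by nlinarith
    exact mul_le_mul_of_nonneg_right h3 (by positivity)
  have hA'k : k ≤ L ^ 22 * (A'.card : ℝ) := by
    have h1 : k ≤ 2 * L ^ 2 * (6 * (A'.card : ℝ)) :=
      hαn1.trans (mul_le_mul_of_nonneg_left hA'c (by positivity))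
    have h2 : 12 * L ^ 2 * (A'.card : ℝ) ≤ L ^ 22 * (A'.card : ℝ) :=
      mul_le_mul_of_nonneg_right hLpow (Nat.cast_nonneg _)
    linarith
  have hB'k : k ≤ L ^ 22 * (B'.card : ℝ) := by
    have h1 : k ≤ 2 * L ^ 2 * (4 * (B'.card : ℝ)) :=
      hαn1.trans (mul_le_mul_of_nonneg_left hB'c (by positivity))
    have h2 : 12 * L ^ 2 * (B'.card : ℝ) ≤ L ^ 22 * (B'.card : ℝ) :=
      mul_le_mul_of_nonneg_right hLpow (Nat.cast_nonneg _)
    have h3 : 0 ≤ L ^ 2 * (B'.card : ℝ) := by positivity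
    linarith
  have hA'ne : A'.Nonempty := by
    rw [← Finset.card_pos]
    by_contra hcon
    have hz : A'.card = 0 := by omega
    rw [hz] at hA'k
    simp at hA'k
    linarith
  have hB'ne : B'.Nonempty := by
    rw [← Finset.card_pos]
    by_contra hcon
    have hz : B'.card = 0 := by omega
    rw [hz] at hB'k
    simp at hB'k
    linarith
  -- number of paths
  have hcount : ∀ a ∈ A', ∀ b ∈ B', k ^ 2 / L ^ 17 ≤
      (((A ×ˢ A).filter fun z => (a, z.2) ∈ E ∧ (z.1, z.2) ∈ E ∧ (z.1, b) ∈ E).card : ℝ) := by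
    intro a ha b hb
    have h1 : α ^ 5 * (A.card : ℝ) ^ 2 ≤ 12288 *
        (((A ×ˢ A).filter fun z => (a, z.2) ∈ E ∧ (z.1, z.2) ∈ E ∧ (z.1, b) ∈ E).card : ℝ) := by
      convert hpath a ha b hb
    rw [← hn] at h1
    have e : α ^ 5 * n ^ 2 = k ^ 10 / (L ^ 5 * n ^ 8) := by rw [hα]; field_simp
    rw [e] at h1
    have h2 : n ^ 8 ≤ (2 * L * k) ^ 8 := pow_le_pow_left₀ hA0.le hA2 8
    have h3 : k ^ 10 / (L ^ 5 * (2 * L * k) ^ 8) ≤ k ^ 10 / (L ^ 5 * n ^ 8) := by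
      apply div_le_div_of_nonneg_left (by positivity) (by positivity)
      exact mul_le_mul_of_nonneg_left h2 (by positivity)
    have h4 : k ^ 10 / (L ^ 5 * (2 * L * k) ^ 8) = k ^ 2 / (256 * L ^ 13) := by
      rw [div_eq_div_iff (by positivity) (by positivity)]
      ring
    have h5 : 12288 * (k ^ 2 / L ^ 17) ≤ k ^ 2 / (256 * L ^ 13) := by
      rw [← mul_div_assoc, div_le_div_iff₀ (by positivity) (by positivity)]
      have h6 : (12288 * 256 : ℝ) ≤ L ^ 4 := by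
        have : (100 : ℝ) ^ 4 ≤ L ^ 4 := pow_le_pow_left₀ (by norm_num) hL 4
        norm_num at this ⊢
        linarith
      have h7 : 12288 * k ^ 2 * (256 * L ^ 13) = (12288 * 256) * (k ^ 2 * L ^ 13) := by ring
      have h8 : k ^ 2 * L ^ 17 = L ^ 4 * (k ^ 2 * L ^ 13) := by ring
      rw [h7, h8]
      exact mul_le_mul_of_nonneg_right h6 (by positivity)
    have h9 : 12288 * (k ^ 2 / L ^ 17) ≤ 12288 *
        (((A ×ˢ A).filter fun z => (a, z.2) ∈ E ∧ (z.1, z.2) ∈ E ∧ (z.1, b) ∈ E).card : ℝ) := by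
      refine h5.trans (le_trans (h4 ▸ h3) ?_)
      exact h1
    linarith
  have hpi : 0 < k ^ 2 / L ^ 17 := by positivity
  have hpne : ∀ a ∈ A', ∀ b ∈ B', ∃ z : ℤ × ℤ, (a, z.2) ∈ E ∧ (z.1, z.2) ∈ E ∧ (z.1, b) ∈ E := by
    intro a ha b hb
    have h1 := hpi.trans_le (hcount a ha b hb)
    have h2 : 0 < ((A ×ˢ A).filter fun z => (a, z.2) ∈ E ∧ (z.1, z.2) ∈ E ∧ (z.1, b) ∈ E).card := by
      exact_mod_cast h1
    obtain ⟨z, hz⟩ := Finset.card_pos.1 h2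
    exact ⟨z, (Finset.mem_filter.1 hz).2⟩
  obtain ⟨b0, hb0⟩ := hB'ne
  obtain ⟨a0, ha0⟩ := hA'ne
  refine ⟨A', ?_, B', ?_, hA'k, hB'k, ?_, ?_⟩
  · intro a ha
    obtain ⟨z, hz, _, _⟩ := hpne a ha b0 hb0
    exact (Finset.mem_product.1 (hE hz)).1
  · intro b hb
    obtain ⟨z, _, _, hz⟩ := hpne a0 ha0 b hb
    exact (Finset.mem_product.1 (hE hz)).2
  · -- the image
    set g : ℤ × ℤ → ℤ := fun z => ⌊(z.1 : ℝ) - c * (z.2 : ℝ)⌋ with hg
    set S := E.image g with hSdef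
    set W := (A' ×ˢ B').image g with hW
    have hch : ∀ w ∈ W, ∃ z : ℤ × ℤ, z ∈ A' ×ˢ B' ∧ g z = w := by
      intro w hw
      obtain ⟨z, hz, hzw⟩ := Finset.mem_image.1 hw
      exact ⟨z, hz, hzw⟩
    choose! rep hrep hrepg using hch
    set T : ℤ → Finset (ℤ × ℤ × ℤ) := fun w =>
      ((A ×ˢ A).filter fun z => ((rep w).1, z.2) ∈ E ∧ (z.1, z.2) ∈ E ∧ (z.1, (rep w).2) ∈ E).image
        fun z : ℤ × ℤ => ((⌊((rep w).1 : ℝ) - c * (z.2 : ℝ)⌋, ⌊(z.1 : ℝ) - c * (z.2 : ℝ)⌋,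
          ⌊(z.1 : ℝ) - c * ((rep w).2 : ℝ)⌋) : ℤ × ℤ × ℤ) with hT
    have hdc := double_count W (S ×ˢ (S ×ˢ S)) T (k ^ 2 / L ^ 17 / (L + 1)) ?_ ?_ ?_
    · rw [Finset.card_product, Finset.card_product] at hdc
      push_cast at hdc
      have hS3 : (S.card : ℝ) * ((S.card : ℝ) * (S.card : ℝ)) ≤ (L * k) ^ 3 := by
        have h0 : (0 : ℝ) ≤ (S.card : ℝ) := Nat.cast_nonneg _
        have h1 : (S.card : ℝ) ^ 3 ≤ (L * k) ^ 3 := pow_le_pow_left₀ h0 hS 3
        calc (S.card : ℝ) * ((S.card : ℝ) * (S.card : ℝ)) = (S.card : ℝ) ^ 3 := by ring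
          _ ≤ _ := h1
      have h1 : (W.card : ℝ) * (k ^ 2 / L ^ 17 / (L + 1)) ≤ 3 * (L * k) ^ 3 :=
        hdc.trans (mul_le_mul_of_nonneg_left hS3 (by norm_num))
      have h2 : (W.card : ℝ) * k ^ 2 ≤ 3 * (L * k) ^ 3 * (L ^ 17 * (L + 1)) := by
        have e : (W.card : ℝ) * (k ^ 2 / L ^ 17 / (L + 1)) =
            (W.card : ℝ) * k ^ 2 / (L ^ 17 * (L + 1)) := by
          field_simp
        rw [e, div_le_iff₀ (by positivity)] at h1
        exact h1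
      have h3 : 3 * (L + 1) ≤ L ^ 2 := by nlinarith
      have h4 : 3 * (L * k) ^ 3 * (L ^ 17 * (L + 1)) ≤ L ^ 22 * k * k ^ 2 := by
        have e1 : 3 * (L * k) ^ 3 * (L ^ 17 * (L + 1)) = (3 * (L + 1)) * (L ^ 20 * k ^ 3) := by ring
        have e2 : L ^ 22 * k * k ^ 2 = L ^ 2 * (L ^ 20 * k ^ 3) := by ring
        rw [e1, e2]
        exact mul_le_mul_of_nonneg_right h3 (by positivity)
      have h5 : (W.card : ℝ) * k ^ 2 ≤ L ^ 22 * k * k ^ 2 := h2.trans h4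
      exact le_of_mul_le_mul_right h5 (by positivity)
    · intro w hw s hs
      rw [hT] at hs
      obtain ⟨z, hz, rfl⟩ := Finset.mem_image.1 hs
      obtain ⟨_, hz1, hz2, hz3⟩ := Finset.mem_filter.1 hz
      refine Finset.mem_product.2 ⟨?_, Finset.mem_product.2 ⟨?_, ?_⟩⟩
      · exact Finset.mem_image.2 ⟨_, hz1, rfl⟩
      · exact Finset.mem_image.2 ⟨_, hz2, rfl⟩
      · exact Finset.mem_image.2 ⟨_, hz3, rfl⟩
    · intro w hw s hs
      rw [hT] at hs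
      obtain ⟨z, hz, rfl⟩ := Finset.mem_image.1 hs
      have := floor_three c (rep w).1 (rep w).2 z.1 z.2
      have hw' := hrepg w hw
      rw [hg] at hw'
      simp only at hw'
      rw [hw'] at this
      exact this
    · intro w hw
      have hr := Finset.mem_product.1 (hrep w hw)
      have h1 := hcount _ hr.1 _ hr.2
      have h2 := paths_le L c (by linarith) hc (rep w).1 (rep w).2
        ((A ×ˢ A).filter fun z => ((rep w).1, z.2) ∈ E ∧ (z.1, z.2) ∈ E ∧ (z.1, (rep w).2) ∈ E)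
      have h3 : (((⌊L⌋₊ + 1 : ℕ) : ℝ)) ≤ L + 1 := by
        push_cast
        linarith [Nat.floor_le hL0.le]
      have h4 : (((A ×ˢ A).filter fun z => ((rep w).1, z.2) ∈ E ∧ (z.1, z.2) ∈ E ∧
          (z.1, (rep w).2) ∈ E).card : ℝ) ≤ ((⌊L⌋₊ + 1 : ℕ) : ℝ) * ((T w).card : ℝ) := by
        exact_mod_cast h2
      rw [div_le_iff₀ (by positivity)]
      have h5 : ((⌊L⌋₊ + 1 : ℕ) : ℝ) * ((T w).card : ℝ) ≤ (L + 1) * ((T w).card : ℝ) :=
        mul_le_mul_of_nonneg_right h3 (Nat.cast_nonneg _)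
      linarith
  · intro u hu
    have h1 := hcount u hu b0 hb0
    have h2 : ((A ×ˢ A).filter fun z => (u, z.2) ∈ E ∧ (z.1, z.2) ∈ E ∧ (z.1, b0) ∈ E).card ≤
        A.card * (V.filter fun v => (u, v) ∈ E).card := by
      rw [← Finset.card_product]
      refine Finset.card_le_card ?_
      intro z hz
      obtain ⟨hz0, hz1, hz2, hz3⟩ := Finset.mem_filter.1 hz
      refine Finset.mem_product.2 ⟨(Finset.mem_product.1 hz0).1, Finset.mem_filter.2 ⟨?_, hz1⟩⟩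
      exact (Finset.mem_product.1 (hE hz1)).2
    have h3 : (((A ×ˢ A).filter fun z => (u, z.2) ∈ E ∧ (z.1, z.2) ∈ E ∧ (z.1, b0) ∈ E).card : ℝ) ≤
        n * ((V.filter fun v => (u, v) ∈ E).card : ℝ) := by
      rw [hn]
      exact_mod_cast h2
    set d : ℝ := ((V.filter fun v => (u, v) ∈ E).card : ℝ) with hd
    have hd0 : 0 ≤ d := Nat.cast_nonneg _
    have h4 : k ^ 2 / L ^ 17 ≤ 2 * L * k * d :=
      h1.trans (h3.trans (mul_le_mul_of_nonneg_right hA2 hd0))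
    rw [div_le_iff₀ (by positivity)] at h4
    have h5 : k * k ≤ k * (2 * L ^ 18 * d) := by
      calc k * k = k ^ 2 := by ring
        _ ≤ 2 * L * k * d * L ^ 17 := h4
        _ = k * (2 * L ^ 18 * d) := by ring
    have h6 : k ≤ 2 * L ^ 18 * d := le_of_mul_le_mul_left h5 hk0
    have h7 : 2 * L ^ 18 ≤ L ^ 22 := by
      have h8 : (1 : ℝ) ≤ L ^ 3 := one_le_pow₀ (by linarith)
      have h9 : L ^ 22 = L ^ 3 * L * L ^ 18 := by ring
      rw [h9]
      have h10 : 2 ≤ L ^ 3 * L := by nlinarith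
      exact mul_le_mul_of_nonneg_right h10 (by positivity)
    exact h6.trans (mul_le_mul_of_nonneg_right h7 hd0)

end Pool.Agent.Work.MP_e17eac_co.RING
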