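import Pool.Agent.Work.MP_e17eac_co.Bd.B03

/-! Ring module, item CLS: the classes of a third slope. -/

set_option autoImplicit false

namespace Pool.Agent.Work.MP_e17eac_co.RING

open Finset

namespace XCLS

theorem ident {x₁ x₂ x : ℝ} (h : x - x₂ ≠ 0) (p : ℝ × ℝ) :
    bb x₁ p - cc x₁ x₂ x * bb x₂ p = (x₁ - x₂) / (x - x₂) * bb x p := by
  unfold bb cc
  field_simp
  ring

/-- the number of possible values over one class -/
theorem card_Icc {α W : ℝ} (hW : 1 ≤ W) :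
    ((Finset.Icc ⌊α⌋ ⌊α + (2 * W + 1)⌋).card : ℝ) ≤ 5 * W := by
  rw [Int.card_Icc]
  have h1 : ⌊α⌋ ≤ ⌊α + (2 * W + 1)⌋ := Int.floor_le_floor (by linarith)
  have h2 : (((⌊α + (2 * W + 1)⌋ + 1 - ⌊α⌋).toNat : ℤ) : ℝ) =
      ((⌊α + (2 * W + 1)⌋ + 1 - ⌊α⌋ : ℤ) : ℝ) := by
    rw [Int.toNat_of_nonneg (by omega)]
  have h3 : (((⌊α + (2 * W + 1)⌋ + 1 - ⌊α⌋).toNat : ℕ) : ℝ) =
      ((⌊α + (2 * W + 1)⌋ + 1 - ⌊α⌋ : ℤ) : ℝ) := by
    rw [← h2]
    norm_cast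
  rw [h3]
  push_cast
  have h4 := Int.floor_le (α + (2 * W + 1))
  have h5 := Int.lt_floor_add_one α
  linarith

theorem fr (b : ℝ) : (⌊b⌋ : ℝ) = b - Int.fract b := by
  rw [Int.fract]
  ring

/-- the position over one class -/
theorem pos {W x₁ x₂ x : ℝ} (h12 : |x₁ - x₂| ≤ 1) (h1 : |x - x₁| ≤ 1)
    (hx : 1 ≤ W * |x - x₂|) (hW : 1 ≤ W) (p : ℝ × ℝ) :
    (x₁ - x₂) / (x - x₂) * (⌊bb x p⌋ : ℝ) + min ((x₁ - x₂) / (x - x₂)) 0 - 1 +
        min (cc x₁ x₂ x) 0 ≤ (⌊bb x₁ p⌋ : ℝ) - cc x₁ x₂ x * (⌊bb x₂ p⌋ : ℝ) ∧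
      (⌊bb x₁ p⌋ : ℝ) - cc x₁ x₂ x * (⌊bb x₂ p⌋ : ℝ) ≤
        (x₁ - x₂) / (x - x₂) * (⌊bb x p⌋ : ℝ) + min ((x₁ - x₂) / (x - x₂)) 0 - 1 +
          min (cc x₁ x₂ x) 0 + (2 * W + 1) := by
  have hpos : 0 < |x - x₂| := by
    by_contra h0
    have h0' : |x - x₂| = 0 := le_antisymm (not_lt.1 h0) (abs_nonneg _)
    rw [h0', mul_zero] at hx
    linarith
  have hne : x - x₂ ≠ 0 := abs_pos.1 hpos
  have hid := ident (x₁ := x₁) hne p
  have hinv : 1 / |x - x₂| ≤ W := by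
    rw [div_le_iff₀ hpos]
    exact hx
  have hlam : |(x₁ - x₂) / (x - x₂)| ≤ W := by
    rw [abs_div]
    calc |x₁ - x₂| / |x - x₂| ≤ 1 / |x - x₂| := div_le_div_of_nonneg_right h12 hpos.le
      _ ≤ W := hinv
  have hc : |cc x₁ x₂ x| ≤ W := by
    unfold cc
    rw [abs_div]
    calc |x - x₁| / |x - x₂| ≤ 1 / |x - x₂| := div_le_div_of_nonneg_right h1 hpos.le
      _ ≤ W := hinv
  rw [abs_le] at hlam hc
  set lam := (x₁ - x₂) / (x - x₂)
  set c := cc x₁ x₂ x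
  rw [fr (bb x₁ p), fr (bb x₂ p), fr (bb x p)]
  have f0 := Int.fract_nonneg (bb x p)
  have f1 := (Int.fract_lt_one (bb x p)).le
  have g0 := Int.fract_nonneg (bb x₁ p)
  have g1 := (Int.fract_lt_one (bb x₁ p)).le
  have k0 := Int.fract_nonneg (bb x₂ p)
  have k1 := (Int.fract_lt_one (bb x₂ p)).le
  generalize Int.fract (bb x p) = f at *
  generalize Int.fract (bb x₁ p) = g at *
  generalize Int.fract (bb x₂ p) = k at *
  have e1 : bb x₁ p - g - c * (bb x₂ p - k) = lam * (bb x p - f) + lam * f - g + c * k := by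
    linear_combination hid
  have l1 : min lam 0 ≤ lam * f := by
    rcases le_total 0 lam with h | h
    · rw [min_eq_right h]
      positivity
    · rw [min_eq_left h]
      nlinarith
  have l2 : lam * f ≤ min lam 0 + W := by
    rcases le_total 0 lam with h | h
    · rw [min_eq_right h]
      nlinarith
    · rw [min_eq_left h]
      nlinarith
  have c1 : min c 0 ≤ c * k := by
    rcases le_total 0 c with h | h
    · rw [min_eq_right h]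
      positivity
    · rw [min_eq_left h]
      nlinarith
  have c2 : c * k ≤ min c 0 + W := by
    rcases le_total 0 c with h | h
    · rw [min_eq_right h]
      nlinarith
    · rw [min_eq_left h]
      nlinarith
  rw [e1]
  constructor <;> linarith

end XCLS

open XCLS in
/-- **CLS** -/
theorem I_CLS : StCls := by
  classical
  intro W x₁ x₂ x G hW h12 h1 hx
  let al : ℤ → ℝ := fun m => (x₁ - x₂) / (x - x₂) * (m : ℝ) + min ((x₁ - x₂) / (x - x₂)) 0 - 1 +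
    min (cc x₁ x₂ x) 0
  have hsub : ((G.image fun p => (⌊bb x₁ p⌋, ⌊bb x₂ p⌋)).image fun z : ℤ × ℤ =>
      ⌊(z.1 : ℝ) - cc x₁ x₂ x * (z.2 : ℝ)⌋) ⊆
      (cl (bb x) G).biUnion fun m => Finset.Icc ⌊al m⌋ ⌊al m + (2 * W + 1)⌋ := by
    intro v hv
    rw [Finset.mem_image] at hv
    obtain ⟨z, hz, rfl⟩ := hv
    rw [Finset.mem_image] at hz
    obtain ⟨p, hp, rfl⟩ := hz
    rw [Finset.mem_biUnion]
    refine ⟨⌊bb x p⌋, Finset.mem_image_of_mem _ hp, ?_⟩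
    obtain ⟨h3, h4⟩ := pos h12 h1 hx hW p
    rw [Finset.mem_Icc]
    exact ⟨Int.floor_le_floor h3, Int.floor_le_floor h4⟩
  have h5 := (Finset.card_le_card hsub).trans Finset.card_biUnion_le
  have h6 : ((((G.image fun p => (⌊bb x₁ p⌋, ⌊bb x₂ p⌋)).image fun z : ℤ × ℤ =>
      ⌊(z.1 : ℝ) - cc x₁ x₂ x * (z.2 : ℝ)⌋).card : ℕ) : ℝ) ≤
      ∑ m ∈ cl (bb x) G, ((Finset.Icc ⌊al m⌋ ⌊al m + (2 * W + 1)⌋).card : ℝ) := by
    exact_mod_cast h5
  refine h6.trans ?_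
  calc ∑ m ∈ cl (bb x) G, ((Finset.Icc ⌊al m⌋ ⌊al m + (2 * W + 1)⌋).card : ℝ)
      ≤ ∑ _m ∈ cl (bb x) G, 5 * W := Finset.sum_le_sum fun m _ => card_Icc hW
    _ = 5 * W * ((cl (bb x) G).card : ℝ) := by
        rw [Finset.sum_const, nsmul_eq_mul, mul_comm]

end Pool.Agent.Work.MP_e17eac_co.RING
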