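import Pool.Agent.Work.MP_e17eac_co.Bd.B03

/-!
# Ring module, item EDGE: the cells of one slope give many pairs of classes
-/

namespace Pool.Agent.Work.MP_e17eac_co.RING

open Finset

namespace XEDGE

lemma fib (K W x₁ x₂ : ℝ) (a : ℝ) (T G : Finset (ℝ × ℝ)) (ha : a ≤ 1) (hK : 1 ≤ K)
    (hW : 1 ≤ W) (h0 : 0 ≤ x₁) (h1 : x₁ ≤ 1) (hx : 1 ≤ W * |x₁ - x₂|) (hG : G ⊆ T)
    (hT : RegT a K T) (y : ℤ × ℤ) :
    ((G.filter fun p => (⌊bb x₁ p⌋, ⌊bb x₂ p⌋) = y).card : ℝ) ≤ 9 * K * W ^ 2 := by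
  classical
  set F := G.filter fun p => (⌊bb x₁ p⌋, ⌊bb x₂ p⌋) = y with hF
  rcases F.eq_empty_or_nonempty with he | ⟨p0, hp0⟩
  · rw [he]
    simp only [card_empty, Nat.cast_zero]
    positivity
  · have hsub : F ⊆ T.filter fun p => |p.1 - p0.1| ≤ 3 * W ∧ |p.2 - p0.2| ≤ 3 * W := by
      intro p hp
      rw [hF, mem_filter] at hp hp0
      rw [mem_filter]
      refine ⟨hG hp.1, ?_⟩
      have e1 : ⌊bb x₁ p⌋ = ⌊bb x₁ p0⌋ := by
        have := hp.2.trans hp0.2.symm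
        exact (Prod.mk.inj this).1
      have e2 : ⌊bb x₂ p⌋ = ⌊bb x₂ p0⌋ := by
        have := hp.2.trans hp0.2.symm
        exact (Prod.mk.inj this).2
      have d1 := Int.abs_sub_lt_one_of_floor_eq_floor e1
      have d2 := Int.abs_sub_lt_one_of_floor_eq_floor e2
      have k1 : (x₂ - x₁) * (p.1 - p0.1) =
          (bb x₁ p - bb x₁ p0) - (bb x₂ p - bb x₂ p0) := by
        unfold bb; ring
      have k2 : |x₁ - x₂| * |p.1 - p0.1| < 2 := by
        rw [abs_sub_comm x₁ x₂, ← abs_mul, k1]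
        rw [abs_lt] at d1 d2 ⊢
        constructor <;> linarith [d1.1, d1.2, d2.1, d2.2]
      have k3 : |p.1 - p0.1| ≤ 2 * W := by
        have hn : 0 ≤ |p.1 - p0.1| := abs_nonneg _
        have : |p.1 - p0.1| * 1 ≤ |p.1 - p0.1| * (W * |x₁ - x₂|) :=
          mul_le_mul_of_nonneg_left hx hn
        have h3 : W * (|x₁ - x₂| * |p.1 - p0.1|) ≤ W * 2 :=
          mul_le_mul_of_nonneg_left k2.le (by linarith)
        nlinarith
      have k4 : p.2 - p0.2 = (bb x₁ p - bb x₁ p0) + x₁ * (p.1 - p0.1) := by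
        unfold bb; ring
      have k5 : |x₁ * (p.1 - p0.1)| ≤ 2 * W := by
        rw [abs_mul, abs_of_nonneg h0]
        have hn : 0 ≤ |p.1 - p0.1| := abs_nonneg _
        nlinarith
      constructor
      · linarith
      · rw [k4]
        calc |bb x₁ p - bb x₁ p0 + x₁ * (p.1 - p0.1)|
            ≤ |bb x₁ p - bb x₁ p0| + |x₁ * (p.1 - p0.1)| := abs_add_le _ _
          _ ≤ 1 + 2 * W := by linarith
          _ ≤ 3 * W := by linarith
    have h3 : (1 : ℝ) ≤ 3 * W := by linarith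
    calc (F.card : ℝ)
        ≤ ((T.filter fun p => |p.1 - p0.1| ≤ 3 * W ∧ |p.2 - p0.2| ≤ 3 * W).card : ℝ) := by
          exact_mod_cast card_le_card hsub
      _ ≤ K * (3 * W) ^ (2 * a) := hT p0 (3 * W) h3
      _ ≤ K * (3 * W) ^ (2 : ℝ) := by
          apply mul_le_mul_of_nonneg_left _ (by linarith)
          exact Real.rpow_le_rpow_of_exponent_le h3 (by linarith)
      _ = 9 * K * W ^ 2 := by
          rw [Real.rpow_two]; ring

end XEDGE

theorem I_EDGE : StEdge := by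
  classical
  intro a K W x₁ x₂ T G _ ha1 hK hW h0 h1 hx hG hT
  have hs := Finset.card_eq_sum_card_image (fun p : ℝ × ℝ => (⌊bb x₁ p⌋, ⌊bb x₂ p⌋)) G
  rw [hs]
  push_cast
  calc ∑ y ∈ G.image (fun p : ℝ × ℝ => (⌊bb x₁ p⌋, ⌊bb x₂ p⌋)),
        ((G.filter fun p => (⌊bb x₁ p⌋, ⌊bb x₂ p⌋) = y).card : ℝ)
      ≤ ∑ _y ∈ G.image (fun p : ℝ × ℝ => (⌊bb x₁ p⌋, ⌊bb x₂ p⌋)), 9 * K * W ^ 2 :=
        Finset.sum_le_sum fun y _ =>
          XEDGE.fib K W x₁ x₂ a T G ha1 hK hW h0 h1 hx hG hT y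
    _ = 9 * K * W ^ 2 * ((G.image fun p => (⌊bb x₁ p⌋, ⌊bb x₂ p⌋)).card : ℝ) := by
        rw [Finset.sum_const, nsmul_eq_mul]; ring

end Pool.Agent.Work.MP_e17eac_co.RING
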