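import Pool.Agent.Work.MP_e17eac_co.Bd.B03

/-!
# Ring module, item NEAR: few almost coincident pairs of cells
-/

set_option autoImplicit false

namespace Pool.Agent.Work.MP_e17eac_co.RING

open Finset

namespace XNEAR

theorem card_prod_filter_le {α β : Type} (S : Finset α) (B : Finset β) (P : α → β → Prop)
    (Q : α → Prop) [∀ s b, Decidable (P s b)] [∀ s, Decidable (Q s)] (c : ℝ) (h : ∀ s ∈ S, Q s → ((B.filter (P s)).card : ℝ) ≤ c)
    (h0 : ∀ s ∈ S, ∀ b ∈ B, P s b → Q s) :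
    (((S ×ˢ B).filter fun z => P z.1 z.2).card : ℝ) ≤ ((S.filter Q).card : ℝ) * c := by
  have e : (((S ×ˢ B).filter fun z => P z.1 z.2).card : ℝ)
      = ∑ s ∈ S, ((B.filter (P s)).card : ℝ) := by
    rw [Finset.card_filter, Finset.sum_product]
    push_cast
    refine Finset.sum_congr rfl fun s _ => ?_
    rw [Finset.card_filter]
    push_cast
    rfl
  rw [e, Finset.card_filter]
  push_cast
  rw [Finset.sum_mul]
  refine Finset.sum_le_sum fun s hs => ?_
  by_cases hq : Q s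
  · simpa [hq] using h s hs hq
  · have : B.filter (fun b => P s b) = ∅ := by
      rw [Finset.filter_eq_empty_iff]
      intro b hb hp
      exact hq (h0 s hs b hb hp)
    rw [this]
    simp [hq]

theorem cardA {a R L : ℝ} {A : Finset ℝ} (hR : 1 ≤ R) (hA : ∀ x ∈ A, 0 ≤ x ∧ x ≤ 1)
    (hr : RegA a R L A) : (A.card : ℝ) ≤ L * R ^ a := by
  have h := hr 0 R hR
  have e : A.filter (fun x => |x - 0| ≤ R / R) = A := by
    rw [Finset.filter_eq_self]
    intro x hx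
    rw [div_self (by linarith), sub_zero, abs_of_nonneg (hA x hx).1]
    exact (hA x hx).2
  rwa [e] at h

/-- Pairs of cells at distance at most `r`. -/
theorem card_pairs {a L r : ℝ} {T : Finset (ℝ × ℝ)} (hr : 1 ≤ r) (hT : RegT a L T) :
    (((T ×ˢ T).filter fun q => |q.2.1 - q.1.1| ≤ r ∧ |q.2.2 - q.1.2| ≤ r).card : ℝ) ≤
      (T.card : ℝ) * (L * r ^ (2 * a)) := by
  have h := card_prod_filter_le T T (fun p p' => |p'.1 - p.1| ≤ r ∧ |p'.2 - p.2| ≤ r)
    (fun _ => True) (L * r ^ (2 * a)) (fun p _ _ => hT p r hr) (fun _ _ _ _ _ => trivial)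
  have e : T.filter (fun _ => True) = T := Finset.filter_true_of_mem fun _ _ => trivial
  rw [e] at h
  convert h using 3

/-- The class of pairs with small time difference. -/
theorem class0 {a R L : ℝ} {A : Finset ℝ} {T : Finset (ℝ × ℝ)} (ha1 : a ≤ 1)
    (hR : 1 ≤ R) (hL : 1 ≤ L) (hA : ∀ x ∈ A, 0 ≤ x ∧ x ≤ 1)
    (hTc : (T.card : ℝ) ≤ L * R ^ (2 * a)) (hr : RegA a R L A) (hT : RegT a L T) :
    ((((T ×ˢ T) ×ˢ A).filter fun z => |z.1.1.1 - z.1.2.1| < 1 ∧
      |bb z.2 z.1.1 - bb z.2 z.1.2| < 1).card : ℝ) ≤ 4 * L ^ 3 * R ^ (3 * a) := by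
  have h := card_prod_filter_le (T ×ˢ T) A
    (fun q x => |q.1.1 - q.2.1| < 1 ∧ |bb x q.1 - bb x q.2| < 1)
    (fun q => |q.2.1 - q.1.1| ≤ 2 ∧ |q.2.2 - q.1.2| ≤ 2) (L * R ^ a)
    (fun q _ _ => (Nat.cast_le.2 (Finset.card_filter_le _ _)).trans (cardA hR hA hr))
    (by
      rintro q - x hx ⟨h1, h2⟩
      have hx' := hA x hx
      unfold bb at h2
      rw [abs_lt] at h1 h2
      refine ⟨?_, ?_⟩
      · rw [abs_le]; constructor <;> linarith [h1.1, h1.2]
      · have h3 : |x * (q.1.1 - q.2.1)| ≤ 1 := by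
          rw [abs_mul, abs_of_nonneg hx'.1]
          calc x * |q.1.1 - q.2.1| ≤ 1 * 1 :=
                mul_le_mul hx'.2 (abs_le.2 ⟨by linarith [h1.1], by linarith [h1.2]⟩)
                  (abs_nonneg _) zero_le_one
            _ = 1 := by norm_num
        rw [abs_le] at h3 ⊢
        constructor <;> nlinarith [h3.1, h3.2, h2.1, h2.2])
  have hp := card_pairs (a := a) (L := L) (r := 2) (T := T) (by norm_num) hT
  have hRa : 0 < R ^ a := Real.rpow_pos_of_pos (by linarith) _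
  have hR2a : 0 < R ^ (2 * a) := Real.rpow_pos_of_pos (by linarith) _
  have h4 : (2 : ℝ) ^ (2 * a) ≤ 4 := by
    calc (2 : ℝ) ^ (2 * a) ≤ 2 ^ (2 : ℝ) :=
          Real.rpow_le_rpow_of_exponent_le (by norm_num) (by linarith)
      _ = 4 := by norm_num
  have h4' : (0 : ℝ) < (2 : ℝ) ^ (2 * a) := Real.rpow_pos_of_pos (by norm_num) _
  have e3 : R ^ (3 * a) = R ^ (2 * a) * R ^ a := by
    rw [← Real.rpow_add (by linarith)]; ring_nf
  calc _ ≤ _ := h
    _ ≤ ((T.card : ℝ) * (L * (2 : ℝ) ^ (2 * a))) * (L * R ^ a) :=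
        mul_le_mul_of_nonneg_right (by convert hp using 3) (by positivity)
    _ ≤ ((L * R ^ (2 * a)) * (L * 4)) * (L * R ^ a) := by
        gcongr
    _ = 4 * L ^ 3 * R ^ (3 * a) := by rw [e3]; ring

/-- The class of pairs with time difference about `s`. -/
theorem classS {a R L s : ℝ} {A : Finset ℝ} {T : Finset (ℝ × ℝ)} (ha1 : a ≤ 1)
    (hs : 1 ≤ s) (hsR : s ≤ R) (hL : 1 ≤ L) (hA : ∀ x ∈ A, 0 ≤ x ∧ x ≤ 1)
    (hTc : (T.card : ℝ) ≤ L * R ^ (2 * a)) (hr : RegA a R L A) (hT : RegT a L T) :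
    ((((T ×ˢ T) ×ˢ A).filter fun z => s ≤ |z.1.1.1 - z.1.2.1| ∧ |z.1.1.1 - z.1.2.1| < 2 * s ∧
      |bb z.2 z.1.1 - bb z.2 z.1.2| < 1).card : ℝ) ≤ 16 * L ^ 3 * R ^ (3 * a) * s ^ a := by
  have hR : 1 ≤ R := hs.trans hsR
  have hs0 : 0 < s := by linarith
  have hR0 : 0 < R := by linarith
  have h := card_prod_filter_le (T ×ˢ T) A
    (fun q x => s ≤ |q.1.1 - q.2.1| ∧ |q.1.1 - q.2.1| < 2 * s ∧ |bb x q.1 - bb x q.2| < 1)
    (fun q => |q.2.1 - q.1.1| ≤ 4 * s ∧ |q.2.2 - q.1.2| ≤ 4 * s) (L * (R / s) ^ a)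
    (by
      rintro q - -
      by_cases hq : s ≤ |q.1.1 - q.2.1|
      · refine le_trans ?_ (hr ((q.1.2 - q.2.2) / (q.1.1 - q.2.1)) (R / s)
          (by rw [le_div_iff₀ hs0]; linarith))
        refine Nat.cast_le.2 (Finset.card_le_card ?_)
        intro x hx
        rw [Finset.mem_filter] at hx ⊢
        refine ⟨hx.1, ?_⟩
        have hb := hx.2.2.2
        unfold bb at hb
        have hd : 0 < |q.1.1 - q.2.1| := lt_of_lt_of_le hs0 hq
        have hd' : q.1.1 - q.2.1 ≠ 0 := abs_pos.1 hd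
        have e1 : x - (q.1.2 - q.2.2) / (q.1.1 - q.2.1) =
            -((q.1.2 - x * q.1.1 - (q.2.2 - x * q.2.1)) / (q.1.1 - q.2.1)) := by
          field_simp
          ring
        rw [e1, abs_neg, abs_div]
        calc |q.1.2 - x * q.1.1 - (q.2.2 - x * q.2.1)| / |q.1.1 - q.2.1| ≤ 1 / s := by
              gcongr
          _ = R / s / R := by field_simp
      · have : A.filter (fun x => s ≤ |q.1.1 - q.2.1| ∧ |q.1.1 - q.2.1| < 2 * s ∧
            |bb x q.1 - bb x q.2| < 1) = ∅ := by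
          rw [Finset.filter_eq_empty_iff]
          intro x _ hx
          exact hq hx.1
        rw [this]
        simp only [Finset.card_empty, Nat.cast_zero]
        positivity)
    (by
      rintro q - x hx ⟨-, h1, h2⟩
      have hx' := hA x hx
      unfold bb at h2
      rw [abs_lt] at h1 h2
      refine ⟨?_, ?_⟩
      · rw [abs_le]; constructor <;> linarith [h1.1, h1.2]
      · have h3 : |x * (q.1.1 - q.2.1)| ≤ 2 * s := by
          rw [abs_mul, abs_of_nonneg hx'.1]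
          calc x * |q.1.1 - q.2.1| ≤ 1 * (2 * s) :=
                mul_le_mul hx'.2 (abs_le.2 ⟨by linarith [h1.1], by linarith [h1.2]⟩)
                  (abs_nonneg _) zero_le_one
            _ = 2 * s := by ring
        rw [abs_le] at h3 ⊢
        constructor <;> nlinarith [h3.1, h3.2, h2.1, h2.2])
  have hp := card_pairs (a := a) (L := L) (r := 4 * s) (T := T) (by linarith) hT
  have hRa : 0 < R ^ a := Real.rpow_pos_of_pos hR0 _
  have hR2a : 0 < R ^ (2 * a) := Real.rpow_pos_of_pos hR0 _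
  have hsa : 0 < s ^ a := Real.rpow_pos_of_pos hs0 _
  have h4 : (4 * s) ^ (2 * a) ≤ 16 * (s ^ a * s ^ a) := by
    rw [Real.mul_rpow (by norm_num) hs0.le]
    have : (4 : ℝ) ^ (2 * a) ≤ 16 := by
      calc (4 : ℝ) ^ (2 * a) ≤ 4 ^ (2 : ℝ) :=
            Real.rpow_le_rpow_of_exponent_le (by norm_num) (by linarith)
        _ = 16 := by norm_num
    have e : s ^ (2 * a) = s ^ a * s ^ a := by
      rw [← Real.rpow_add hs0]; ring_nf
    rw [e]
    gcongr
  have e3 : R ^ (3 * a) = R ^ (2 * a) * R ^ a := by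
    rw [← Real.rpow_add hR0]; ring_nf
  have ed : (R / s) ^ a = R ^ a / s ^ a := Real.div_rpow hR0.le hs0.le a
  calc _ ≤ _ := h
    _ ≤ ((T.card : ℝ) * (L * (4 * s) ^ (2 * a))) * (L * (R / s) ^ a) :=
        mul_le_mul_of_nonneg_right (by convert hp using 3) (by positivity)
    _ ≤ ((L * R ^ (2 * a)) * (L * (16 * (s ^ a * s ^ a)))) * (L * (R / s) ^ a) := by
        gcongr
    _ = 16 * L ^ 3 * R ^ (3 * a) * s ^ a := by
        rw [e3, ed]; field_simp

end XNEAR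

open XNEAR in
theorem I_NEAR : StNear := by
  intro a R L M A T ha ha1 hM hMR hL hlog hA hTc hr hT
  have hR : 1 ≤ R := hM.trans hMR
  have hR0 : 0 < R := by linarith
  have hM0 : 0 < M := by linarith
  have hL1 : 1 ≤ L := by linarith
  set n : ℕ := ⌊Real.logb 2 R⌋₊ + 1 with hn
  have hlog0 : 0 ≤ Real.logb 2 R := Real.logb_nonneg (by norm_num) hR
  have hnL : (n : ℝ) ≤ L := by
    have := Nat.floor_le hlog0
    rw [hn]; push_cast; linarith
  set S0 := ((T ×ˢ T) ×ˢ A).filter fun z : ((ℝ × ℝ) × (ℝ × ℝ)) × ℝ =>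
    |z.1.1.1 - z.1.2.1| < 1 ∧ |bb z.2 z.1.1 - bb z.2 z.1.2| < 1 with hS0
  set I := (range n).filter fun i => (2 : ℝ) ^ i ≤ R / M with hI
  set Si := fun i : ℕ => ((T ×ˢ T) ×ˢ A).filter fun z : ((ℝ × ℝ) × (ℝ × ℝ)) × ℝ =>
    (2 : ℝ) ^ i ≤ |z.1.1.1 - z.1.2.1| ∧ |z.1.1.1 - z.1.2.1| < 2 * 2 ^ i ∧
      |bb z.2 z.1.1 - bb z.2 z.1.2| < 1 with hSi
  have hcov : (((T ×ˢ T) ×ˢ A).filter fun z => |z.1.1.1 - z.1.2.1| < R / M ∧
      |bb z.2 z.1.1 - bb z.2 z.1.2| < 1) ⊆ S0 ∪ I.biUnion Si := by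
    intro z hz
    rw [Finset.mem_filter] at hz
    obtain ⟨hz0, hz1, hz2⟩ := hz
    rw [Finset.mem_union]
    by_cases hc : |z.1.1.1 - z.1.2.1| < 1
    · left
      rw [hS0, Finset.mem_filter]
      exact ⟨hz0, hc, hz2⟩
    · right
      rw [not_lt] at hc
      obtain ⟨i, hi1, hi2⟩ := exists_nat_pow_near hc (one_lt_two : (1 : ℝ) < 2)
      rw [Finset.mem_biUnion]
      have hiR : (2 : ℝ) ^ i ≤ R / M := hi1.trans hz1.le
      refine ⟨i, ?_, ?_⟩
      · rw [hI, Finset.mem_filter, Finset.mem_range]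
        refine ⟨?_, hiR⟩
        have h1 : (2 : ℝ) ^ i ≤ R := by
          refine hiR.trans ?_
          rw [div_le_iff₀ hM0]
          nlinarith
        have h2 : (i : ℝ) ≤ Real.logb 2 R := by
          rw [Real.le_logb_iff_rpow_le (by norm_num) hR0, Real.rpow_natCast]
          exact h1
        have h3 : i ≤ ⌊Real.logb 2 R⌋₊ := Nat.le_floor h2
        omega
      · rw [hSi]
        simp only [Finset.mem_filter]
        refine ⟨hz0, hi1, ?_, hz2⟩
        rw [pow_succ] at hi2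
        linarith
  have hMa : 0 < M ^ a := Real.rpow_pos_of_pos hM0 _
  have hR3 : 0 < R ^ (3 * a) := Real.rpow_pos_of_pos hR0 _
  have e4 : R ^ (4 * a) = R ^ (3 * a) * R ^ a := by
    rw [← Real.rpow_add hR0]; ring_nf
  have hR4 : 0 < R ^ (4 * a) := Real.rpow_pos_of_pos hR0 _
  have hcl : ∀ i ∈ I, ((Si i).card : ℝ) ≤ 16 * L ^ 3 * R ^ (4 * a) / M ^ a := by
    intro i hi
    rw [hI, Finset.mem_filter] at hi
    have h2 : (1 : ℝ) ≤ 2 ^ i := one_le_pow₀ (by norm_num)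
    have h3 : (2 : ℝ) ^ i ≤ R := by
      refine hi.2.trans ?_
      rw [div_le_iff₀ hM0]
      nlinarith
    have h := classS ha1 h2 h3 hL1 hA hTc hr hT
    refine h.trans ?_
    have h5 : ((2 : ℝ) ^ i) ^ a ≤ (R / M) ^ a :=
      Real.rpow_le_rpow (by positivity) hi.2 ha.le
    rw [Real.div_rpow hR0.le hM0.le] at h5
    calc 16 * L ^ 3 * R ^ (3 * a) * ((2 : ℝ) ^ i) ^ a
        ≤ 16 * L ^ 3 * R ^ (3 * a) * (R ^ a / M ^ a) := by gcongr
      _ = 16 * L ^ 3 * R ^ (4 * a) / M ^ a := by rw [e4]; ring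
  have h0 := class0 ha1 hR hL1 hA hTc hr hT
  have hb : ((I.biUnion Si).card : ℝ) ≤ 16 * L ^ 4 * R ^ (4 * a) / M ^ a := by
    have h1 : ((I.biUnion Si).card : ℝ) ≤ ∑ i ∈ I, ((Si i).card : ℝ) := by
      exact_mod_cast Finset.card_biUnion_le
    have h2 : ∑ i ∈ I, ((Si i).card : ℝ) ≤ ∑ _i ∈ I, 16 * L ^ 3 * R ^ (4 * a) / M ^ a :=
      Finset.sum_le_sum hcl
    rw [Finset.sum_const, nsmul_eq_mul] at h2
    have h3 : (I.card : ℝ) ≤ L := by
      refine le_trans ?_ hnL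
      have h4 : I.card ≤ (range n).card := Finset.card_filter_le _ _
      rw [Finset.card_range] at h4
      exact Nat.cast_le.2 h4
    calc _ ≤ _ := h1
      _ ≤ _ := h2
      _ ≤ L * (16 * L ^ 3 * R ^ (4 * a) / M ^ a) := by gcongr
      _ = 16 * L ^ 4 * R ^ (4 * a) / M ^ a := by ring
  calc _ ≤ ((S0 ∪ I.biUnion Si).card : ℝ) := by exact_mod_cast Finset.card_le_card hcov
    _ ≤ (S0.card : ℝ) + ((I.biUnion Si).card : ℝ) := by
        exact_mod_cast Finset.card_union_le _ _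
    _ ≤ 4 * L ^ 3 * R ^ (3 * a) + 16 * L ^ 4 * R ^ (4 * a) / M ^ a := add_le_add h0 hb
    _ = _ := by ring

end Pool.Agent.Work.MP_e17eac_co.RING
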