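import Pool.Agent.Work.MP_e17eac_co.RING.RLd

/-!
# Ring module: the configuration gives an affine copy of the multipliers
-/

namespace Pool.Agent.Work.MP_e17eac_co.RING

open Finset
open scoped Pointwise

open XRL in
theorem I_RL (hSel : StSel) (hEdge : StEdge) (hCls : StCls) (hBSG : StBSG) (hPop : StPop)
    (hDil : StDil) (hSum : StSum) (hNear : StNear) (hTri : StTri) (hAff : StAff) : StRL := by
  intro a R K N A T I ha ha1 hN haN hK hlog hR hKR h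
  obtain ⟨x₁, x₂, x₀, C, A₀, β, Y, r, hx₁, hx₂, hx₀, hCA, hA₀, h12, h01, h02, hC, hCc, hY, hA₀c⟩ :=
    XRL.copy hSel hEdge hCls hBSG hPop hDil hNear hTri hAff a R K N A T I ha ha1 hN haN hK hlog hR
      hKR h
  have hR0 : 0 < R := by linarith
  have hK1 : 1 ≤ K := by linarith
  have hK0 : 0 < K := by linarith
  have hkk : 1 ≤ R ^ a := Real.one_le_rpow hR ha.le
  have hp : ∀ {m n : ℕ}, m ≤ n → K ^ m ≤ K ^ n := fun hmn => pow_le_pow_right₀ hK1 hmn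
  have hNN : N ≤ N ^ 2 := by nlinarith
  obtain ⟨W, hWdef⟩ : ∃ W, W = K ^ (10 * N) := ⟨_, rfl⟩
  obtain ⟨L, hL⟩ : ∃ L, L = K ^ (6600 * N) := ⟨_, rfl⟩
  obtain ⟨M, hM⟩ : ∃ M, M = K ^ (59400 * N ^ 2) := ⟨_, rfl⟩
  obtain ⟨k, hk⟩ : ∃ k, k = R ^ a := ⟨_, rfl⟩
  rw [← hWdef] at h12 h01 h02
  rw [← hk] at hkk hCc hA₀c
  rw [← hL] at hCc hY
  rw [← hM] at hY
  rw [← hWdef, ← hk, ← hL] at hC
  have hk0 : 0 < k := by linarith
  have hW1 : 1 ≤ W := by rw [hWdef]; exact one_le_pow₀ hK1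
  have hW0 : 0 < W := by linarith
  have hL1 : 1 ≤ L := by rw [hL]; exact one_le_pow₀ hK1
  have hL0 : 0 < L := by linarith
  have hM1 : 1 ≤ M := by rw [hM]; exact one_le_pow₀ hK1
  have hs := h.slope
  have hpos : ∀ z w : ℝ, 1 ≤ W * |z - w| → z ≠ w := by
    rintro z w hz rfl
    rw [sub_self, abs_zero, mul_zero] at hz
    linarith
  have hx12 : x₁ ≠ x₂ := hpos _ _ h12
  have hC2 : ∀ x ∈ C, x ≠ x₂ := fun x hx => hpos _ _ (hC x hx).2.1
  -- the big constant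
  obtain ⟨Λ, hΛ⟩ : ∃ Λ, Λ = K ^ (13000000 * N ^ 2) := ⟨_, rfl⟩
  have hΛL : ∀ n : ℕ, n ≤ 13000000 * N ^ 2 → K ^ n ≤ Λ := fun n hn => by rw [hΛ]; exact hp hn
  have hWΛ : W ≤ Λ := by rw [hWdef]; exact hΛL _ (by omega)
  have hL10Λ : L ^ 10 ≤ Λ := by rw [hL, ← pow_mul]; exact hΛL _ (by omega)
  have h3LΛ : 3 * L ≤ Λ := by
    refine le_trans ?_ (hΛL (1 + 6600 * N) (by omega))
    rw [pow_add, pow_one, ← hL]
    gcongr
    linarith
  have h3Λ : 3 ≤ Λ := by linarith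
  have hLMΛ : 2 * L * M ≤ Λ := by
    refine le_trans ?_ (hΛL (1 + 6600 * N + 59400 * N ^ 2) (by omega))
    rw [pow_add, pow_add, pow_one, ← hL, ← hM]
    gcongr
    linarith
  have hWKΛ : 2 * W * K ≤ Λ := by
    refine le_trans ?_ (hΛL (2 + 10 * N) (by omega))
    rw [pow_add, ← hWdef]
    calc 2 * W * K ≤ K * W * K := by gcongr; linarith
      _ = K ^ 2 * W := by ring
  refine ⟨C.image (cc x₁ x₂), A₀, fun c => r ((c * x₂ - x₁) / (c - 1)), β, Y, ?_⟩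
  rw [← hΛ]
  have hinj : Set.InjOn (cc x₁ x₂) (C : Set ℝ) := by
    intro x hx x' hx' hxx
    rw [← cc_inv hx12 (hC2 x hx), ← cc_inv hx12 (hC2 x' hx'), hxx]
  have hccb : ∀ x ∈ C, |cc x₁ x₂ x| ≤ W ∧ 1 ≤ W * |cc x₁ x₂ x| := fun x hx =>
    cc_bd hW1 (hs x (hCA hx)) (hs x₁ hx₁) (hs x₂ hx₂) (hC x hx).1 (hC x hx).2.1
  refine ⟨?_, ?_, ?_, ?_, ?_, ?_, ?_, ?_⟩
  · intro c hc
    obtain ⟨x, hx, rfl⟩ := mem_image.mp hc
    exact ⟨(hccb x hx).1.trans hWΛ, (hccb x hx).2.trans (by gcongr)⟩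
  · rw [card_image_of_injOn hinj, ← hk]
    exact hCc.trans (by gcongr)
  · intro c δ hδ
    exact reg_cc hR ha ha1 hK0 (regA h) hCA hW1 hs (hs x₂ hx₂) h12
      (fun x hx => (hC x hx).2.1) hWKΛ c δ hδ
  · intro u hu
    have hu' := hA₀ hu
    rw [PP, cl, mem_image] at hu'
    obtain ⟨p, hp, rfl⟩ := hu'
    have hb := h.box p (mem_filter.mp hp).1
    have hbb : |bb x₁ p| ≤ 2 * R := by
      rw [bb]
      calc |p.2 - x₁ * p.1| ≤ |p.2| + |x₁ * p.1| := abs_sub _ _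
        _ ≤ R + 1 * R := by
          rw [abs_mul]
          have : |x₁| ≤ 1 := by
            rw [abs_of_nonneg (hs x₁ hx₁).1]
            exact (hs x₁ hx₁).2
          gcongr
          · exact hb.2
          · exact hb.1
        _ = 2 * R := by ring
    have h1 := Int.floor_le (bb x₁ p)
    have h2 := Int.lt_floor_add_one (bb x₁ p)
    have h3 := abs_le.mp hbb
    have : |((⌊bb x₁ p⌋ : ℤ) : ℝ)| ≤ 3 * R := abs_le.mpr ⟨by linarith [h3.1], by linarith [h3.2]⟩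
    exact this.trans (by gcongr)
  · intro c hc
    obtain ⟨x, hx, rfl⟩ := mem_image.mp hc
    rw [cc_inv hx12 (hC2 x hx)]
    exact (hC x hx).2.2.2.1
  · intro c hc
    obtain ⟨x, hx, rfl⟩ := mem_image.mp hc
    rw [cc_inv hx12 (hC2 x hx)]
    exact (hC x hx).2.2.2.2.trans h3LΛ
  · exact hY.trans (mul_le_mul_of_nonneg_right hLMΛ (abs_nonneg _))
  · intro γ hγ
    have h1 : ∀ x ∈ C, ((dl (cc x₁ x₂ x) A₀ - dl (cc x₁ x₂ x₀) A₀).card : ℝ) ≤
        K ^ (84480 * N) * k := fun x hx => (hC x hx).2.2.1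
    have hWK : W ≤ K ^ (84480 * N) := by rw [hWdef]; exact hp (by omega)
    have c0 := cc_bd hW1 (hs x₀ hx₀) (hs x₁ hx₁) (hs x₂ hx₂) h01 h02
    have h2 := hSum (K ^ (84480 * N)) k (cc x₁ x₂ x₀) A₀ γ
      (by
        calc (100 : ℝ) ≤ K := hK
          _ = K ^ 1 := (pow_one K).symm
          _ ≤ _ := hp (by omega)) hkk (c0.1.trans hWK) (c0.2.trans (by gcongr))
      (hA₀c.trans (by
        exact mul_le_mul_of_nonneg_right (hp (by omega)) (Nat.cast_nonneg _))) (by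
        intro i
        rcases hγ i with hi | hi
        · left
          obtain ⟨x, hx, hxi⟩ := mem_image.mp hi
          rw [← hxi]
          exact ⟨h1 x hx, (hccb x hx).1.trans hWK, (hccb x hx).2.trans (by gcongr)⟩
        · right
          obtain ⟨x, hx, hxi⟩ := mem_image.mp hi
          rw [← abs_neg (γ i), ← hxi]
          exact ⟨h1 x hx, (hccb x hx).1.trans hWK, (hccb x hx).2.trans (by gcongr)⟩)
    rw [← hk]
    have h3 : (K ^ (84480 * N)) ^ 150 ≤ Λ := by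
      rw [← pow_mul]
      exact hΛL (84480 * N * 150) (by omega)
    exact h2.trans (mul_le_mul_of_nonneg_right h3 hk0.le)

end Pool.Agent.Work.MP_e17eac_co.RING
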