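import Pool.Agent.Work.MP_e17eac_co.Bd.B03

/-! Item SUM of the ring module: sums of nine dilates (Ruzsa covering and Pluennecke). -/

namespace Pool.Agent.Work.MP_e17eac_co.RING

open Finset
open scoped Pointwise

namespace XSUM

lemma card_fib (L c : ℝ) (hc : 1 ≤ L * |c|) (U : Finset ℤ) (m : ℤ) :
    (U.filter fun u : ℤ => ⌊c * (u : ℝ)⌋ = m).card ≤ ⌈L⌉₊ := by
  set S := U.filter fun u : ℤ => ⌊c * (u : ℝ)⌋ = m with hS
  rcases S.eq_empty_or_nonempty with h | h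
  · rw [h]; simp
  · obtain ⟨u₀, hu₀, hmin⟩ := S.exists_min_image (fun u => u) h
    have hsub : S ⊆ Finset.Ico u₀ (u₀ + (⌈L⌉₊ : ℤ)) := by
      intro u hu
      have h1 : u₀ ≤ u := hmin u hu
      rw [Finset.mem_Ico]
      refine ⟨h1, ?_⟩
      have e0 := (Finset.mem_filter.1 hu₀).2
      have e1 := (Finset.mem_filter.1 hu).2
      have f0 := Int.floor_le (c * (u₀ : ℝ))
      have f1 := Int.lt_floor_add_one (c * (u₀ : ℝ))
      have g0 := Int.floor_le (c * (u : ℝ))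
      have g1 := Int.lt_floor_add_one (c * (u : ℝ))
      rw [e0] at f0 f1
      rw [e1] at g0 g1
      have hd : |c * ((u : ℝ) - (u₀ : ℝ))| < 1 := by
        rw [abs_lt]; constructor <;> linarith
      have h1' : (0 : ℝ) ≤ (u : ℝ) - (u₀ : ℝ) := by
        have : (u₀ : ℝ) ≤ (u : ℝ) := by exact_mod_cast h1
        linarith
      rw [abs_mul, abs_of_nonneg h1'] at hd
      have h2 : (u : ℝ) - (u₀ : ℝ) < L := by
        by_contra hcon
        have hcon' : L ≤ (u : ℝ) - (u₀ : ℝ) := not_lt.1 hcon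
        have : L * |c| ≤ |c| * ((u : ℝ) - (u₀ : ℝ)) := by
          rw [mul_comm]; exact mul_le_mul_of_nonneg_left hcon' (abs_nonneg _)
        linarith
      have h3 : (u : ℝ) < ((u₀ + (⌈L⌉₊ : ℤ) : ℤ) : ℝ) := by
        push_cast
        have := Nat.le_ceil L
        linarith
      exact_mod_cast h3
    calc S.card ≤ (Finset.Ico u₀ (u₀ + (⌈L⌉₊ : ℤ))).card := card_le_card hsub
      _ = ⌈L⌉₊ := by rw [Int.card_Ico]; simp

lemma card_dl (L k c : ℝ) (hL : 100 ≤ L) (hc : 1 ≤ L * |c|) (U : Finset ℤ)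
    (hU : k ≤ L * (U.card : ℝ)) : k ≤ 2 * L ^ 2 * ((dl c U).card : ℝ) := by
  have h := Finset.card_le_mul_card_image (f := fun u : ℤ => ⌊c * (u : ℝ)⌋) U ⌈L⌉₊
    (fun a _ => card_fib L c hc U a)
  have h' : (U.card : ℝ) ≤ (⌈L⌉₊ : ℝ) * ((dl c U).card : ℝ) := by
    have : U.card ≤ ⌈L⌉₊ * (dl c U).card := h
    exact_mod_cast this
  have h2 : (⌈L⌉₊ : ℝ) ≤ 2 * L := by
    have := Nat.ceil_lt_add_one (by linarith : (0 : ℝ) ≤ L)
    linarith
  have h3 : (0 : ℝ) ≤ ((dl c U).card : ℝ) := Nat.cast_nonneg _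
  calc k ≤ L * (U.card : ℝ) := hU
    _ ≤ L * (2 * L * ((dl c U).card : ℝ)) :=
        mul_le_mul_of_nonneg_left (h'.trans (mul_le_mul_of_nonneg_right h2 h3)) (by linarith)
    _ = 2 * L ^ 2 * ((dl c U).card : ℝ) := by ring

lemma sum_sub {ι : Type} [DecidableEq ι] (s : Finset ι) (D X : ι → Finset ℤ) (Z : Finset ℤ)
    (h : ∀ i ∈ s, D i ⊆ X i + Z) : ∑ i ∈ s, D i ⊆ (∑ i ∈ s, X i) + s.card • Z := by
  induction s using Finset.induction_on with
  | empty => simp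
  | insert a s ha ih =>
    rw [Finset.sum_insert ha, Finset.sum_insert ha, Finset.card_insert_of_notMem ha, succ_nsmul]
    have h1 := h a (Finset.mem_insert_self a s)
    have h2 := ih fun i hi => h i (Finset.mem_insert_of_mem hi)
    refine (Finset.add_subset_add h1 h2).trans ?_
    rw [show X a + Z + (∑ i ∈ s, X i + s.card • Z) = X a + ∑ i ∈ s, X i + (s.card • Z + Z) by
      abel]

lemma card_sum_le {ι : Type} [DecidableEq ι] (s : Finset ι) (X : ι → Finset ℤ) :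
    (∑ i ∈ s, X i).card ≤ ∏ i ∈ s, (X i).card := by
  induction s using Finset.induction_on with
  | empty => simp
  | insert a s ha ih =>
    rw [Finset.sum_insert ha, Finset.prod_insert ha]
    exact (Finset.card_add_le).trans (Nat.mul_le_mul_left _ ih)

lemma neg_dl (γ : ℝ) (U : Finset ℤ) : dl γ U ⊆ -(dl (-γ) U) + ({0, -1} : Finset ℤ) := by
  intro m hm
  obtain ⟨u, hu, rfl⟩ := Finset.mem_image.1 hm
  rw [Finset.mem_add]
  have hmem : -(⌊-γ * (u : ℝ)⌋) ∈ -(dl (-γ) U) :=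
    Finset.neg_mem_neg (Finset.mem_image.2 ⟨u, hu, rfl⟩)
  have f0 := Int.floor_le (-γ * (u : ℝ))
  have f1 := Int.lt_floor_add_one (-γ * (u : ℝ))
  set n := ⌊-γ * (u : ℝ)⌋ with hn
  have hlow : -n - 1 ≤ ⌊γ * (u : ℝ)⌋ := by
    apply Int.le_floor.2
    push_cast
    linarith
  have hup : ⌊γ * (u : ℝ)⌋ ≤ -n := by
    have : ⌊γ * (u : ℝ)⌋ < -n + 1 := by
      apply Int.floor_lt.2
      push_cast
      linarith
    omega
  rcases (by omega : ⌊γ * (u : ℝ)⌋ = -n ∨ ⌊γ * (u : ℝ)⌋ = -n - 1) with h | h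
  · exact ⟨-n, hmem, 0, by simp, by rw [h]; ring⟩
  · exact ⟨-n, hmem, -1, by simp, by rw [h]; ring⟩

lemma cover (L k : ℝ) (hL : 100 ≤ L) (C Y : Finset ℤ) (hY : Y.Nonempty)
    (hkY : k ≤ 2 * L ^ 2 * (Y.card : ℝ)) (hCY : ((C - Y).card : ℝ) ≤ L * k) :
    ∃ F : Finset ℤ, (F.card : ℝ) ≤ 2 * L ^ 3 ∧ C ⊆ F + (Y - Y) := by
  have hY' : (-Y).Nonempty := hY.neg
  have hK : ((C + -Y).card : ℝ) ≤ (2 * L ^ 3) * ((-Y).card : ℝ) := by
    rw [← sub_eq_add_neg, Finset.card_neg]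
    calc ((C - Y).card : ℝ) ≤ L * k := hCY
      _ ≤ L * (2 * L ^ 2 * (Y.card : ℝ)) := mul_le_mul_of_nonneg_left hkY (by linarith)
      _ = (2 * L ^ 3) * (Y.card : ℝ) := by ring
  obtain ⟨F, -, hF, hsub⟩ := Finset.ruzsa_covering_add hY' hK
  refine ⟨F, hF, ?_⟩
  have e : (-Y - -Y : Finset ℤ) = Y - Y := by
    rw [sub_neg_eq_add, add_comm, sub_eq_add_neg]
  rwa [e] at hsub

end XSUM

open XSUM in
theorem I_SUM : StSum := by
  intro L k c₀ U γ hL hk _ hc₀ hU hγ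
  have hL0 : (0 : ℝ) < L := by linarith
  have hk0 : (0 : ℝ) < k := by linarith
  set Y := dl c₀ U with hYdef
  have hkY : k ≤ 2 * L ^ 2 * (Y.card : ℝ) := card_dl L k c₀ hL hc₀ U hU
  have hYpos : (0 : ℝ) < (Y.card : ℝ) := by
    by_contra hcon
    have : (Y.card : ℝ) = 0 := le_antisymm (not_lt.1 hcon) (Nat.cast_nonneg _)
    rw [this] at hkY
    linarith
  have hY : Y.Nonempty := Finset.card_pos.1 (by exact_mod_cast hYpos)
  -- the doubling of `Y`
  obtain ⟨C, hC1, hC2⟩ : ∃ C : Finset ℤ, ((C - Y).card : ℝ) ≤ L * k ∧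
      k ≤ 2 * L ^ 2 * (C.card : ℝ) := by
    rcases hγ 0 with h | h
    · exact ⟨_, h.1, card_dl L k _ hL h.2.2 U hU⟩
    · refine ⟨_, h.1, card_dl L k _ hL ?_ U hU⟩
      rw [abs_neg]; exact h.2.2
  have hCpos : (0 : ℝ) < (C.card : ℝ) := by
    by_contra hcon
    have : (C.card : ℝ) = 0 := le_antisymm (not_lt.1 hcon) (Nat.cast_nonneg _)
    rw [this] at hC2
    linarith
  have hCne : C.Nonempty := Finset.card_pos.1 (by exact_mod_cast hCpos)
  have hYC : ((Y - C).card : ℝ) ≤ L * k := by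
    rw [← neg_sub C Y, Finset.card_neg]; exact hC1
  have hYk : (Y.card : ℝ) ≤ L * k := by
    have : Y.card ≤ (C - Y).card := by
      rw [sub_eq_add_neg]
      calc Y.card = (-Y).card := (Finset.card_neg _).symm
        _ ≤ (C + -Y).card := Finset.card_le_card_add_left hCne
    calc (Y.card : ℝ) ≤ ((C - Y).card : ℝ) := by exact_mod_cast this
      _ ≤ L * k := hC1
  have htri : ((Y - Y).card : ℝ) * (C.card : ℝ) ≤ (L * k) * (L * k) := by
    have h := Finset.ruzsa_triangle_inequality_sub_sub_sub Y C Y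
    have h' : ((Y - Y).card : ℝ) * (C.card : ℝ) ≤ ((Y - C).card : ℝ) * ((Y - C).card : ℝ) := by
      exact_mod_cast h
    exact h'.trans (mul_le_mul hYC hYC (Nat.cast_nonneg _) (by positivity))
  have hYY : ((Y - Y).card : ℝ) ≤ 4 * L ^ 6 * (Y.card : ℝ) := by
    have h1 : ((Y - Y).card : ℝ) * k ≤ (2 * L ^ 4 * k) * k := by
      calc ((Y - Y).card : ℝ) * k ≤ ((Y - Y).card : ℝ) * (2 * L ^ 2 * (C.card : ℝ)) :=
            mul_le_mul_of_nonneg_left hC2 (Nat.cast_nonneg _)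
        _ = 2 * L ^ 2 * (((Y - Y).card : ℝ) * (C.card : ℝ)) := by ring
        _ ≤ 2 * L ^ 2 * ((L * k) * (L * k)) := mul_le_mul_of_nonneg_left htri (by positivity)
        _ = (2 * L ^ 4 * k) * k := by ring
    have h2 : ((Y - Y).card : ℝ) ≤ 2 * L ^ 4 * k := le_of_mul_le_mul_right h1 hk0
    calc ((Y - Y).card : ℝ) ≤ 2 * L ^ 4 * k := h2
      _ ≤ 2 * L ^ 4 * (2 * L ^ 2 * (Y.card : ℝ)) := mul_le_mul_of_nonneg_left hkY (by positivity)
      _ = 4 * L ^ 6 * (Y.card : ℝ) := by ring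
  -- covering
  have hcov : ∀ i, ∃ X : Finset ℤ, (X.card : ℝ) ≤ 4 * L ^ 3 ∧ dl (γ i) U ⊆ X + (Y - Y) := by
    intro i
    rcases hγ i with h | h
    · obtain ⟨F, hF, hs⟩ := cover L k hL (dl (γ i) U) Y hY hkY h.1
      refine ⟨F, hF.trans ?_, hs⟩
      have : (0 : ℝ) ≤ L ^ 3 := by positivity
      linarith
    · obtain ⟨F, hF, hs⟩ := cover L k hL (dl (-γ i) U) Y hY hkY h.1
      refine ⟨-F + ({0, -1} : Finset ℤ), ?_, ?_⟩
      · have h1 : (-F + ({0, -1} : Finset ℤ)).card ≤ F.card * 2 := by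
          refine (Finset.card_add_le).trans ?_
          rw [Finset.card_neg]
          exact Nat.mul_le_mul_left _ Finset.card_le_two
        have h2 : ((-F + ({0, -1} : Finset ℤ)).card : ℝ) ≤ (F.card : ℝ) * 2 := by
          exact_mod_cast h1
        linarith
      · refine (neg_dl (γ i) U).trans ?_
        have h3 : -(dl (-γ i) U) ⊆ -F + (Y - Y) := by
          have h4 : -(dl (-γ i) U) ⊆ -(F + (Y - Y)) := Finset.neg_subset_neg hs
          rwa [neg_add, neg_sub] at h4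
        refine (Finset.add_subset_add_right h3).trans ?_
        rw [show -F + (Y - Y) + ({0, -1} : Finset ℤ) = -F + ({0, -1} : Finset ℤ) + (Y - Y) by
          rw [add_right_comm]]
  choose X hX1 hX2 using hcov
  have hsub := sum_sub (Finset.univ : Finset (Fin 9)) (fun i => dl (γ i) U) X (Y - Y)
    (fun i _ => hX2 i)
  have hcard9 : (Finset.univ : Finset (Fin 9)).card = 9 := by simp
  rw [hcard9] at hsub
  have hXs : ((∑ i, X i).card : ℝ) ≤ (4 * L ^ 3) ^ 9 := by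
    have h1 := card_sum_le (Finset.univ : Finset (Fin 9)) X
    calc ((∑ i, X i).card : ℝ) ≤ ((∏ i, (X i).card : ℕ) : ℝ) := by exact_mod_cast h1
      _ = ∏ i, ((X i).card : ℝ) := by push_cast; rfl
      _ ≤ ∏ _i : Fin 9, (4 * L ^ 3) :=
          Finset.prod_le_prod (fun _ _ => Nat.cast_nonneg _) fun i _ => hX1 i
      _ = (4 * L ^ 3) ^ 9 := by rw [Finset.prod_const, hcard9]
  have hpl : (((9 : ℕ) • (Y - Y)).card : ℝ) ≤ (4 * L ^ 6) ^ 18 * (L * k) := by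
    have e : (9 : ℕ) • (Y - Y) = (9 : ℕ) • Y - (9 : ℕ) • Y := nsmul_sub Y Y 9
    rw [e]
    have h := Finset.pluennecke_ruzsa_inequality_nsmul_sub_nsmul_sub hY Y 9 9
    have h' : ((((9 : ℕ) • Y - (9 : ℕ) • Y).card : ℚ) : ℝ) ≤
        ((((Y - Y).card : ℚ) / (Y.card : ℚ)) ^ 18 * (Y.card : ℚ) : ℚ) := by
      have h2 : ((((9 : ℕ) • Y - (9 : ℕ) • Y).card : ℚ)) ≤
          (((Y - Y).card : ℚ) / (Y.card : ℚ)) ^ 18 * (Y.card : ℚ) := by
        have := (NNRat.coe_le_coe.2 h)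
        push_cast at this
        exact this
      exact_mod_cast h2
    push_cast at h'
    refine h'.trans ?_
    have h3 : ((Y - Y).card : ℝ) / (Y.card : ℝ) ≤ 4 * L ^ 6 := by
      rw [div_le_iff₀ hYpos]; exact hYY
    exact mul_le_mul (pow_le_pow_left₀ (by positivity) h3 18) hYk (Nat.cast_nonneg _)
      (by positivity)
  have htot : ((∑ i, dl (γ i) U).card : ℝ) ≤ (4 * L ^ 3) ^ 9 * ((4 * L ^ 6) ^ 18 * (L * k)) := by
    have h1 : (∑ i, dl (γ i) U).card ≤ (∑ i, X i).card * ((9 : ℕ) • (Y - Y)).card :=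
      (card_le_card hsub).trans Finset.card_add_le
    calc ((∑ i, dl (γ i) U).card : ℝ)
        ≤ ((∑ i, X i).card : ℝ) * (((9 : ℕ) • (Y - Y)).card : ℝ) := by exact_mod_cast h1
      _ ≤ _ := mul_le_mul hXs hpl (Nat.cast_nonneg _) (by positivity)
  refine htot.trans ?_
  have e1 : (4 * L ^ 3) ^ 9 * ((4 * L ^ 6) ^ 18 * (L * k)) = (4 ^ 27 * L ^ 136) * k := by ring
  rw [e1]
  apply mul_le_mul_of_nonneg_right _ hk0.le
  have h5 : (4 : ℝ) ^ 27 ≤ L ^ 14 := by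
    calc (4 : ℝ) ^ 27 ≤ 100 ^ 14 := by norm_num
      _ ≤ L ^ 14 := pow_le_pow_left₀ (by norm_num) hL 14
  calc (4 : ℝ) ^ 27 * L ^ 136 ≤ L ^ 14 * L ^ 136 := mul_le_mul_of_nonneg_right h5 (by positivity)
    _ = L ^ 150 := by rw [← pow_add]

end Pool.Agent.Work.MP_e17eac_co.RING
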