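import Pool.Agent.Work.MP_e17eac_co.RING.P_RING
import Pool.Agent.Work.MP_e17eac_co.RING.P_RL
import Pool.Agent.Work.MP_e17eac_co.Bd.B29
import Pool.Agent.Work.MP_e17eac_co.RING.P_EDGE
import Pool.Agent.Work.MP_e17eac_co.RING.P_CLS
import Pool.Agent.Work.MP_e17eac_co.RING.P_BSG
import Pool.Agent.Work.MP_e17eac_co.Bd.B04
import Pool.Agent.Work.MP_e17eac_co.RING.P_SUM
import Pool.Agent.Work.MP_e17eac_co.RING.P_NEAR
import Pool.Agent.Work.MP_e17eac_co.RING.P_AFF

/-!
# Ring module: the main theorem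
-/

namespace Pool.Agent.Work.MP_e17eac_co.RING

/-- The structure theorem. -/
theorem stRL : StRL :=
  I_RL I_SEL I_EDGE I_CLS I_BSG I_POP I_DIL I_SUM I_NEAR I_TRI I_AFF

/-- **Main theorem of the ring module**: there is no nearly complete incidence configuration. -/
theorem ringMain : RingMain := I_RING stRL

end Pool.Agent.Work.MP_e17eac_co.RING
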