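import Pool.Agent.Work.MP_e17eac_co.Bd.B03

/-!
# Ring module, item COV: few classes of a combination of dilates
-/

set_option autoImplicit false

namespace Pool.Agent.Work.MP_e17eac_co.RING

open Finset
open scoped Pointwise

namespace XCOV

/-- a sum of members of finite sets is a member of the sum of the sets -/
theorem sum_mem_sum {ι : Type} (s : Finset ι) (X : ι → Finset ℤ) (x : ι → ℤ)
    (h : ∀ i ∈ s, x i ∈ X i) : ∑ i ∈ s, x i ∈ ∑ i ∈ s, X i := by
  classical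
  induction s using Finset.induction_on with
  | empty => simp
  | insert a s ha ih =>
    rw [Finset.sum_insert ha, Finset.sum_insert ha]
    exact Finset.add_mem_add (h a (mem_insert_self a s)) (ih fun i hi => h i (mem_insert_of_mem hi))

/-- a translate has at least half as many classes -/
theorem card_translate {ι : Type} (S : Finset ι) (f : ι → ℝ) (v : ℝ) :
    (S.image fun i => ⌊f i⌋).card ≤ 2 * (S.image fun i => ⌊v + f i⌋).card := by
  classical
  set B := S.image fun i => ⌊v + f i⌋ with hB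
  have hsub : (S.image fun i => ⌊f i⌋) ⊆
      (B.image fun n => n - ⌊v⌋) ∪ (B.image fun n => n - ⌊v⌋ - 1) := by
    intro n hn
    obtain ⟨i, hi, rfl⟩ := mem_image.1 hn
    have h1 := Int.le_floor_add v (f i)
    have h2 := Int.le_floor_add_floor v (f i)
    have hm : ⌊v + f i⌋ ∈ B := mem_image.2 ⟨i, hi, rfl⟩
    rcases (by omega : ⌊f i⌋ = ⌊v + f i⌋ - ⌊v⌋ ∨ ⌊f i⌋ = ⌊v + f i⌋ - ⌊v⌋ - 1) with h | h
    · exact mem_union_left _ (mem_image.2 ⟨_, hm, h.symm⟩)
    · exact mem_union_right _ (mem_image.2 ⟨_, hm, h.symm⟩)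
  calc _ ≤ _ := card_le_card hsub
    _ ≤ _ := card_union_le _ _
    _ ≤ B.card + B.card := Nat.add_le_add card_image_le card_image_le
    _ = 2 * B.card := by ring

/-- a maximal separated subset -/
theorem exists_net (D : Finset ℝ) (δ : ℝ) (hδ : 0 ≤ δ) :
    ∃ Z ⊆ D, (∀ z ∈ Z, ∀ z' ∈ Z, z ≠ z' → δ < |z - z'|) ∧ ∀ c ∈ D, ∃ z ∈ Z, |c - z| ≤ δ := by
  classical
  set F := D.powerset.filter fun Z => ∀ z ∈ Z, ∀ z' ∈ Z, z ≠ z' → δ < |z - z'| with hF
  have h0 : (∅ : Finset ℝ) ∈ F := by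
    rw [hF, mem_filter]
    exact ⟨mem_powerset.2 (empty_subset _), fun z hz => absurd hz (notMem_empty z)⟩
  obtain ⟨Z, hZ, hmax⟩ := Finset.exists_max_image F Finset.card ⟨_, h0⟩
  obtain ⟨hZD, hsep⟩ := mem_filter.1 hZ
  refine ⟨Z, mem_powerset.1 hZD, hsep, fun c hc => ?_⟩
  by_contra hcon
  push Not at hcon
  have hcZ : c ∉ Z := by
    intro h
    have := hcon c h
    rw [sub_self, abs_zero] at this
    linarith
  have hin : insert c Z ∈ F := by
    rw [hF, mem_filter, mem_powerset]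
    refine ⟨insert_subset hc (mem_powerset.1 hZD), ?_⟩
    intro z hz z' hz' hne
    rcases mem_insert.1 hz with rfl | hz1
    · rcases mem_insert.1 hz' with rfl | hz1'
      · exact absurd rfl hne
      · exact hcon z' hz1'
    · rcases mem_insert.1 hz' with rfl | hz1'
      · rw [abs_sub_comm]
        exact hcon z hz1
      · exact hsep z hz1 z' hz1' hne
  have := hmax _ hin
  rw [card_insert_of_notMem hcZ] at this
  omega

/-- the floor of a sum of nine numbers -/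
theorem floor_sum (x : Fin 9 → ℝ) : ∑ i, ⌊x i⌋ ≤ ⌊∑ i, x i⌋ ∧ ⌊∑ i, x i⌋ ≤ ∑ i, ⌊x i⌋ + 8 := by
  constructor
  · rw [Int.le_floor]
    push_cast
    exact Finset.sum_le_sum fun i _ => Int.floor_le _
  · have h : ∑ i, x i < ((∑ i, ⌊x i⌋ + 9 : ℤ) : ℝ) := by
      push_cast
      have h1 : ∑ i, x i < ∑ i : Fin 9, ((⌊x i⌋ : ℝ) + 1) :=
        Finset.sum_lt_sum_of_nonempty ⟨0, mem_univ _⟩ fun i _ => Int.lt_floor_add_one _
      rw [Finset.sum_add_distrib] at h1
      simpa using h1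
    have := Int.floor_lt.2 h
    omega

end XCOV

open XCOV in
theorem I_COV : StCov := by
  classical
  intro a R L D A₀ r β Y ha ha1 hL hR h c₁ hc₁ c₂ hc₂ c₃ hc₃ c₄ hc₄ d₁ hd₁ d₂ hd₂ hs h12 hd12
  set s : ℝ := |c₃ - c₄| with hsdef
  have hL0 : (0 : ℝ) < L := by linarith
  have hR0 : (0 : ℝ) < R := by linarith
  have hs0 : 0 < s := by
    by_contra hcon
    push Not at hcon
    have : R * s ≤ 0 := mul_nonpos_of_nonneg_of_nonpos hR0.le hcon
    linarith
  have hRa : 0 < R ^ a := Real.rpow_pos_of_pos hR0 a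
  have hsa : 0 < s ^ a := Real.rpow_pos_of_pos hs0 a
  set f : ℤ × ℤ → ℝ := fun z => 2 * (c₃ - c₄) * (z.1 : ℝ) + (c₁ - c₂ + (d₁ - d₂)) * (z.2 : ℝ)
    with hf
  set N := ((A₀ ×ˢ A₀).image fun z : ℤ × ℤ => ⌊f z⌋).card with hN
  have hfle : ∀ z ∈ A₀ ×ˢ A₀, |f z| ≤ 6 * s * (L * R) := by
    intro z hz
    obtain ⟨h1, h2⟩ := mem_product.1 hz
    have hb1 := h.bdA _ h1
    have hb2 := h.bdA _ h2
    have hLR : 0 ≤ L * R := by positivity
    have e1 : |2 * (c₃ - c₄) * (z.1 : ℝ)| ≤ 2 * s * (L * R) := by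
      rw [abs_mul, abs_mul, abs_two]
      exact mul_le_mul_of_nonneg_left hb1 (by positivity)
    have e2 : |(c₁ - c₂ + (d₁ - d₂)) * (z.2 : ℝ)| ≤ 4 * s * (L * R) := by
      rw [abs_mul]
      have e3 : |c₁ - c₂ + (d₁ - d₂)| ≤ 4 * s := by
        have := abs_add_le (c₁ - c₂) (d₁ - d₂)
        linarith
      exact mul_le_mul e3 hb2 (abs_nonneg _) (by positivity)
    have := abs_add_le (2 * (c₃ - c₄) * (z.1 : ℝ)) ((c₁ - c₂ + (d₁ - d₂)) * (z.2 : ℝ))
    rw [hf]
    simp only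
    linarith
  have hDne : D.Nonempty := ⟨_, hc₁⟩
  -- the net
  set δ : ℝ := 16 * L ^ 3 * s with hδ
  have hδ0 : 0 ≤ δ := by positivity
  obtain ⟨Z, hZD, hsep, hcov⟩ := exists_net D δ hδ0
  have hL3 : (1 : ℝ) ≤ 16 * L ^ 3 := by
    have : (1 : ℝ) ≤ L ^ 3 := one_le_pow₀ (by linarith)
    linarith
  have hRδ : R * δ = 16 * L ^ 3 * (R * s) := by rw [hδ]; ring
  have hRδ1 : 1 ≤ R * δ := by
    rw [hRδ]
    nlinarith
  have hpow : (R * δ) ^ a ≤ 16 * L ^ 3 * (R ^ a * s ^ a) := by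
    rw [hRδ, Real.mul_rpow (by positivity) (by positivity), Real.mul_rpow hR0.le hs0.le]
    refine mul_le_mul_of_nonneg_right ?_ (by positivity)
    calc (16 * L ^ 3) ^ a ≤ (16 * L ^ 3) ^ (1 : ℝ) := Real.rpow_le_rpow_of_exponent_le hL3 ha1
      _ = 16 * L ^ 3 := Real.rpow_one _
  have hDcard : (D.card : ℝ) ≤ (Z.card : ℝ) * (16 * L ^ 4 * (R ^ a * s ^ a)) := by
    have hsub : D ⊆ Z.biUnion fun z => D.filter fun c' => |c' - z| ≤ δ := by
      intro c hc
      obtain ⟨z, hz, hcz⟩ := hcov c hc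
      exact mem_biUnion.2 ⟨z, hz, mem_filter.2 ⟨hc, hcz⟩⟩
    calc (D.card : ℝ) ≤ ((Z.biUnion fun z => D.filter fun c' => |c' - z| ≤ δ).card : ℝ) := by
          exact_mod_cast card_le_card hsub
      _ ≤ ∑ z ∈ Z, ((D.filter fun c' => |c' - z| ≤ δ).card : ℝ) := by
          exact_mod_cast card_biUnion_le
      _ ≤ ∑ z ∈ Z, 16 * L ^ 4 * (R ^ a * s ^ a) := by
          refine Finset.sum_le_sum fun z _ => ?_
          calc _ ≤ L * (R * δ) ^ a := h.reg z δ hRδ1
            _ ≤ L * (16 * L ^ 3 * (R ^ a * s ^ a)) := mul_le_mul_of_nonneg_left hpow hL0.le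
            _ = 16 * L ^ 4 * (R ^ a * s ^ a) := by ring
      _ = _ := by rw [Finset.sum_const, nsmul_eq_mul]
  have hZ1 : 1 ≤ 16 * L ^ 5 * s ^ a * (Z.card : ℝ) := by
    have h1 : R ^ a ≤ L * ((Z.card : ℝ) * (16 * L ^ 4 * (R ^ a * s ^ a))) :=
      h.card.trans (mul_le_mul_of_nonneg_left hDcard hL0.le)
    have h2 : R ^ a * 1 ≤ R ^ a * (16 * L ^ 5 * s ^ a * (Z.card : ℝ)) := by
      rw [mul_one]
      calc R ^ a ≤ _ := h1
        _ = _ := by ring
    exact le_of_mul_le_mul_left h2 hRa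
  -- the separated translates
  set W : Finset ℤ := (A₀ ×ˢ (A₀ ×ˢ A₀)).image fun w : ℤ × (ℤ × ℤ) =>
    ⌊c₁ * (w.1 : ℝ) + f w.2⌋ with hW
  set B : ℝ → Finset ℤ := fun z => (A₀ ×ˢ A₀).image fun w : ℤ × ℤ => ⌊c₁ * (r z : ℝ) + f w⌋ with hB
  have hBW : Z.biUnion B ⊆ W := by
    intro n hn
    obtain ⟨z, hz, hn⟩ := mem_biUnion.1 hn
    obtain ⟨w, hw, rfl⟩ := mem_image.1 hn
    exact mem_image.2 ⟨(r z, w), mem_product.2 ⟨h.mem _ (hZD hz), hw⟩, rfl⟩
  have hdisj : ∀ z ∈ Z, ∀ z' ∈ Z, z ≠ z' → Disjoint (B z) (B z') := by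
    intro z hz z' hz' hne
    rw [Finset.disjoint_left]
    intro n hn hn'
    obtain ⟨w, hw, hwn⟩ := mem_image.1 hn
    obtain ⟨w', hw', hwn'⟩ := mem_image.1 hn'
    have e1 : |c₁ * (r z : ℝ) + f w - (c₁ * (r z' : ℝ) + f w')| < 1 :=
      Int.abs_sub_lt_one_of_floor_eq_floor (hwn.trans hwn'.symm)
    have e2 := hfle w hw
    have e3 := hfle w' hw'
    have a1 := h.aff z (hZD hz)
    have a2 := h.aff z' (hZD hz')
    have hsz := hsep z hz z' hz' hne
    -- lower bound for the difference of the translates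
    have b1 : |Y| * δ - 2 * L ≤ |(r z : ℝ) - (r z' : ℝ)| := by
      have b2 : |Y * (z - z')| ≤ |(r z : ℝ) - (r z' : ℝ)| + 2 * L := by
        have b3 : Y * (z - z') = ((r z : ℝ) - (r z' : ℝ)) - ((r z : ℝ) - (β + Y * z)) +
          ((r z' : ℝ) - (β + Y * z')) := by ring
        rw [b3]
        calc _ ≤ |((r z : ℝ) - (r z' : ℝ)) - ((r z : ℝ) - (β + Y * z))| +
              |(r z' : ℝ) - (β + Y * z')| := abs_add_le _ _
          _ ≤ |(r z : ℝ) - (r z' : ℝ)| + |(r z : ℝ) - (β + Y * z)| +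
              |(r z' : ℝ) - (β + Y * z')| := by
              gcongr
              exact abs_sub _ _
          _ ≤ _ := by linarith
      rw [abs_mul] at b2
      have b4 : |Y| * δ ≤ |Y| * |z - z'| := mul_le_mul_of_nonneg_left hsz.le (abs_nonneg _)
      linarith
    have b5 : R * (16 * L ^ 2 * s) - 2 * L ≤ |(r z : ℝ) - (r z' : ℝ)| := by
      have b6 : R * (16 * L ^ 2 * s) ≤ |Y| * δ := by
        rw [hδ]
        calc R * (16 * L ^ 2 * s) ≤ (L * |Y|) * (16 * L ^ 2 * s) :=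
              mul_le_mul_of_nonneg_right h.low (by positivity)
          _ = |Y| * (16 * L ^ 3 * s) := by ring
      linarith
    have b7 : 16 * L * (R * s) - 2 ≤ |c₁ * (r z : ℝ) - c₁ * (r z' : ℝ)| := by
      rw [← mul_sub, abs_mul]
      have hc := (h.bdD c₁ hc₁).2
      have b8 : |(r z : ℝ) - (r z' : ℝ)| ≤ L * (|c₁| * |(r z : ℝ) - (r z' : ℝ)|) := by
        calc _ = 1 * |(r z : ℝ) - (r z' : ℝ)| := (one_mul _).symm
          _ ≤ (L * |c₁|) * |(r z : ℝ) - (r z' : ℝ)| :=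
            mul_le_mul_of_nonneg_right hc (abs_nonneg _)
          _ = _ := by ring
      have b9 : L * (16 * L * (R * s) - 2) ≤ L * (|c₁| * |(r z : ℝ) - (r z' : ℝ)|) := by
        calc L * (16 * L * (R * s) - 2) = R * (16 * L ^ 2 * s) - 2 * L := by ring
          _ ≤ _ := b5
          _ ≤ _ := b8
      exact le_of_mul_le_mul_left b9 hL0
    have b10 : |c₁ * (r z : ℝ) - c₁ * (r z' : ℝ)| ≤
        |c₁ * (r z : ℝ) + f w - (c₁ * (r z' : ℝ) + f w')| + |f w| + |f w'| := by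
      have b11 : c₁ * (r z : ℝ) - c₁ * (r z' : ℝ) =
        (c₁ * (r z : ℝ) + f w - (c₁ * (r z' : ℝ) + f w')) - f w + f w' := by ring
      rw [b11]
      calc _ ≤ |(c₁ * (r z : ℝ) + f w - (c₁ * (r z' : ℝ) + f w')) - f w| + |f w'| :=
            abs_add_le _ _
        _ ≤ _ := by
            gcongr
            exact abs_sub _ _
    have b12 : 100 ≤ L * (R * s) := by nlinarith
    have b13 : 6 * s * (L * R) = 6 * (L * (R * s)) := by ring
    have b14 : 16 * L * (R * s) = 16 * (L * (R * s)) := by ring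
    rw [b13] at e2 e3
    rw [b14] at b7
    linarith
  have hsum : (Z.card : ℝ) * (N : ℝ) ≤ 2 * (W.card : ℝ) := by
    have h1 : ∑ z ∈ Z, N ≤ ∑ z ∈ Z, 2 * (B z).card :=
      Finset.sum_le_sum fun z _ => card_translate (A₀ ×ˢ A₀) f (c₁ * (r z : ℝ))
    rw [Finset.sum_const, smul_eq_mul, ← Finset.mul_sum, ← Finset.card_biUnion hdisj] at h1
    have h2 := card_le_card hBW
    have h3 : Z.card * N ≤ 2 * W.card := by omega
    exact_mod_cast h3
  -- the classes of the sum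
  have hWcard : (W.card : ℝ) ≤ 9 * (L * R ^ a) := by
    set γ : Fin 9 → ℝ := ![c₁, c₃, c₃, -c₄, -c₄, c₁, -c₂, d₁, -d₂] with hγ
    have hγD : ∀ i, γ i ∈ D ∨ -γ i ∈ D := by
      intro i
      fin_cases i
      · exact Or.inl hc₁
      · exact Or.inl hc₃
      · exact Or.inl hc₃
      · right
        change - -c₄ ∈ D
        rwa [neg_neg]
      · right
        change - -c₄ ∈ D
        rwa [neg_neg]
      · exact Or.inl hc₁
      · right
        change - -c₂ ∈ D
        rwa [neg_neg]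
      · exact Or.inl hd₁
      · right
        change - -d₂ ∈ D
        rwa [neg_neg]
    have hS := h.sum γ hγD
    have hsub : W ⊆ ((∑ i, dl (γ i) A₀) ×ˢ Finset.range 9).image fun p : ℤ × ℕ =>
        p.1 + (p.2 : ℤ) := by
      intro n hn
      obtain ⟨⟨w, u, u'⟩, hw, rfl⟩ := mem_image.1 hn
      obtain ⟨hw, huu⟩ := mem_product.1 hw
      obtain ⟨hu, hu'⟩ := mem_product.1 huu
      simp only at hw hu hu'
      set x : Fin 9 → ℤ := ![w, u, u, u, u, u', u', u', u'] with hx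
      have hxA : ∀ i, x i ∈ A₀ := by
        intro i
        fin_cases i
        · exact hw
        · exact hu
        · exact hu
        · exact hu
        · exact hu
        · exact hu'
        · exact hu'
        · exact hu'
        · exact hu'
      have hsumx : c₁ * (w : ℝ) + f (u, u') = ∑ i, γ i * (x i : ℝ) := by
        rw [hf, hγ, hx]
        simp only [Fin.sum_univ_succ, Fin.sum_univ_zero]
        simp
        ring
      have hfl := floor_sum fun i => γ i * (x i : ℝ)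
      have hmem : ∑ i, ⌊γ i * (x i : ℝ)⌋ ∈ ∑ i, dl (γ i) A₀ :=
        sum_mem_sum univ _ _ fun i _ => mem_image.2 ⟨x i, hxA i, rfl⟩
      refine mem_image.2 ⟨(∑ i, ⌊γ i * (x i : ℝ)⌋,
        (⌊∑ i, γ i * (x i : ℝ)⌋ - ∑ i, ⌊γ i * (x i : ℝ)⌋).toNat), ?_, ?_⟩
      · refine mem_product.2 ⟨hmem, ?_⟩
        rw [Finset.mem_range]
        simp only
        omega
      · simp only
        rw [hsumx]
        omega
    have h1 : W.card ≤ (∑ i, dl (γ i) A₀).card * 9 := by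
      calc W.card ≤ _ := card_le_card hsub
        _ ≤ _ := card_image_le
        _ = _ := by rw [card_product, card_range]
    calc (W.card : ℝ) ≤ ((∑ i, dl (γ i) A₀).card : ℝ) * 9 := by exact_mod_cast h1
      _ ≤ (L * R ^ a) * 9 := mul_le_mul_of_nonneg_right hS (by norm_num)
      _ = 9 * (L * R ^ a) := by ring
  have hfin : (N : ℝ) ≤ 288 * L ^ 6 * R ^ a * s ^ a := by
    have hN0 : (0 : ℝ) ≤ N := Nat.cast_nonneg _
    calc (N : ℝ) = 1 * (N : ℝ) := (one_mul _).symm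
      _ ≤ (16 * L ^ 5 * s ^ a * (Z.card : ℝ)) * (N : ℝ) := mul_le_mul_of_nonneg_right hZ1 hN0
      _ = 16 * L ^ 5 * s ^ a * ((Z.card : ℝ) * (N : ℝ)) := by ring
      _ ≤ 16 * L ^ 5 * s ^ a * (2 * (9 * (L * R ^ a))) := by
          refine mul_le_mul_of_nonneg_left ?_ (by positivity)
          linarith
      _ = 288 * L ^ 6 * R ^ a * s ^ a := by ring
  exact hfin

end Pool.Agent.Work.MP_e17eac_co.RING
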