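import Pool.Agent.Work.MP_e17eac_co.Bd.B03

/-!
# Item PIV: the pivot argument
-/

namespace Pool.Agent.Work.MP_e17eac_co.RING

open Finset
open scoped Pointwise

namespace XPIV

theorem quad_mono {D : Finset ℝ} {t δ δ' : ℝ} (h : δ ≤ δ') : quad D t δ ⊆ quad D t δ' := by
  intro z hz
  simp only [quad, mem_filter] at hz ⊢
  exact ⟨hz.1, hz.2.trans h⟩

/-- Numerical core of the general estimate. -/
theorem num {X N F L S w P G : ℝ} (hL : 0 < L) (hS : 0 < S) (hX : 0 ≤ X)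
    (hP : P ≤ L ^ 4) (hw : 2 * L ^ 22 * w ≤ 1) (hw0 : 0 ≤ w)
    (hup : X ≤ L ^ 12 * S * (N + F)) (hN : N ≤ L ^ 6 * (X * w) * (P / S))
    (hS2 : S ≤ 2 * L) (hFG : F ≤ G) (hF : 0 ≤ F) :
    X ≤ 4 * L ^ 13 * G := by
  have h1 : L ^ 12 * S * N ≤ X / 2 := by
    calc L ^ 12 * S * N ≤ L ^ 12 * S * (L ^ 6 * (X * w) * (P / S)) := by gcongr
      _ = L ^ 18 * (X * w) * P := by field_simp
      _ ≤ L ^ 18 * (X * w) * L ^ 4 := by gcongr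
      _ = X * (L ^ 22 * w) := by ring
      _ ≤ X * (1 / 2) := by
          apply mul_le_mul_of_nonneg_left _ hX
          linarith
      _ = X / 2 := by ring
  have h2 : L ^ 12 * S * F ≤ L ^ 12 * (2 * L) * G := by
    calc L ^ 12 * S * F ≤ L ^ 12 * (2 * L) * F := by gcongr
      _ ≤ L ^ 12 * (2 * L) * G := by gcongr
  nlinarith [h1, h2, hup]

theorem general (hPN : StPN) {a R L s : ℝ} {D : Finset ℝ} (ha : 0 < a) (ha1 : a ≤ 1)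
    (hL : 100 ≤ L) (hR : 1 ≤ R) (hs : 0 < s) (hRs : 1 ≤ R * s)
    (hD : ∀ c ∈ D, |c| ≤ L)
    (hreg : ∀ c δ : ℝ, 1 ≤ R * δ → ((D.filter fun c' => |c' - c| ≤ δ).card : ℝ) ≤ L * (R * δ) ^ a)
    (hup : ∀ c₁ ∈ D, ∀ c₂ ∈ D, ∀ c₃ ∈ D, ∀ c₄ ∈ D, ∀ d₁ ∈ D, ∀ d₂ ∈ D, 1 ≤ R * |c₃ - c₄| →
      |c₁ - c₂| ≤ 2 * |c₃ - c₄| → |d₁ - d₂| ≤ 2 * |c₃ - c₄| →
      R ^ (3 * a) ≤ L ^ 12 * |c₃ - c₄| ^ a *
        ((quad D ((c₁ - c₂ + (d₁ - d₂)) / (2 * (c₃ - c₄))) (L ^ 4 / (|c₃ - c₄| * R))).card : ℝ))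
    (hsa : 2 * L ^ 22 * s ^ a ≤ 1)
    {c₁ c₂ c₃ c₄ d₁ d₂ : ℝ} (h1 : c₁ ∈ D) (h2 : c₂ ∈ D) (h3 : c₃ ∈ D) (h4 : c₄ ∈ D)
    (h5 : d₁ ∈ D) (h6 : d₂ ∈ D) (h34 : s ≤ |c₃ - c₄|) (h12 : |c₁ - c₂| ≤ 2 * |c₃ - c₄|)
    (h56 : |d₁ - d₂| ≤ 2 * |c₃ - c₄|) :
    R ^ (3 * a) ≤ 4 * L ^ 13 * (((quad D ((c₁ - c₂ + (d₁ - d₂)) / (2 * (c₃ - c₄)))
      ((L ^ 4 / (s ^ 2 * R)) * s)).filter fun z => s ≤ |z.2.1 - z.2.2|).card : ℝ) := by
  have hs1 : 0 < |c₃ - c₄| := lt_of_lt_of_le hs h34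
  have hL0 : 0 < L := by linarith
  have hR0 : 0 < R := by linarith
  have hs1L : |c₃ - c₄| ≤ 2 * L := by
    have := abs_sub c₃ c₄
    linarith [hD c₃ h3, hD c₄ h4]
  have hL4 : 2 * L ≤ L ^ 4 := by
    have h0 : (2 : ℝ) ≤ L ^ 3 := by
      calc (2 : ℝ) ≤ 100 ^ 3 := by norm_num
        _ ≤ L ^ 3 := by gcongr
    calc 2 * L ≤ L ^ 3 * L := by gcongr
      _ = L ^ 4 := by ring
  have hRδ : R * (L ^ 4 / (|c₃ - c₄| * R)) = L ^ 4 / |c₃ - c₄| := by field_simp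
  have hRδ1 : 1 ≤ R * (L ^ 4 / (|c₃ - c₄| * R)) := by
    rw [hRδ, one_le_div hs1]; linarith
  have hRs1 : 1 ≤ R * |c₃ - c₄| := hRs.trans (by gcongr)
  have hu := hup c₁ h1 c₂ h2 c₃ h3 c₄ h4 d₁ h5 d₂ h6 hRs1 h12 h56
  have hpn := hPN a R L s ((c₁ - c₂ + (d₁ - d₂)) / (2 * (c₃ - c₄)))
    (L ^ 4 / (|c₃ - c₄| * R)) D ha ha1 (by linarith) hR hRs hRδ1 hD hreg
  rw [hRδ] at hpn
  have hsub : L ^ 4 / (|c₃ - c₄| * R) ≤ (L ^ 4 / (s ^ 2 * R)) * s := by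
    have e : (L ^ 4 / (s ^ 2 * R)) * s = L ^ 4 / (s * R) := by field_simp
    rw [e]
    gcongr
  have hsplit := Finset.card_filter_add_card_filter_not
    (s := quad D ((c₁ - c₂ + (d₁ - d₂)) / (2 * (c₃ - c₄))) (L ^ 4 / (|c₃ - c₄| * R)))
    (fun z => |z.2.1 - z.2.2| < s)
  have hle : ((quad D ((c₁ - c₂ + (d₁ - d₂)) / (2 * (c₃ - c₄)))
      (L ^ 4 / (|c₃ - c₄| * R))).filter fun z => ¬ |z.2.1 - z.2.2| < s).card ≤
      ((quad D ((c₁ - c₂ + (d₁ - d₂)) / (2 * (c₃ - c₄)))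
      ((L ^ 4 / (s ^ 2 * R)) * s)).filter fun z => s ≤ |z.2.1 - z.2.2|).card := by
    apply card_le_card
    intro z hz
    rw [mem_filter] at hz ⊢
    exact ⟨quad_mono hsub hz.1, not_lt.1 hz.2⟩
  have hle' : (((quad D ((c₁ - c₂ + (d₁ - d₂)) / (2 * (c₃ - c₄)))
      (L ^ 4 / (|c₃ - c₄| * R))).filter fun z => ¬ |z.2.1 - z.2.2| < s).card : ℝ) ≤
      (((quad D ((c₁ - c₂ + (d₁ - d₂)) / (2 * (c₃ - c₄)))
      ((L ^ 4 / (s ^ 2 * R)) * s)).filter fun z => s ≤ |z.2.1 - z.2.2|).card : ℝ) := by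
    exact_mod_cast hle
  rw [← hsplit] at hu
  push_cast at hu
  have hR3 : R ^ (3 * a) = R ^ (2 * a) * R ^ a := by
    rw [← Real.rpow_add hR0]; congr 1; ring
  refine num (S := |c₃ - c₄| ^ a) (w := s ^ a) (P := (L ^ 4) ^ a) hL0 (by positivity)
    (by positivity) ?_ hsa (by positivity) hu ?_ ?_ hle' (by positivity)
  · calc (L ^ 4) ^ a ≤ (L ^ 4) ^ (1 : ℝ) :=
        Real.rpow_le_rpow_of_exponent_le (by linarith) ha1
      _ = L ^ 4 := Real.rpow_one _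
  · refine hpn.trans (le_of_eq ?_)
    rw [Real.mul_rpow hR0.le hs.le, Real.div_rpow (by positivity) hs1.le, hR3]
    ring
  · calc |c₃ - c₄| ^ a ≤ (2 * L) ^ a := by
          apply Real.rpow_le_rpow hs1.le hs1L ha.le
      _ ≤ (2 * L) ^ (1 : ℝ) := Real.rpow_le_rpow_of_exponent_le (by linarith) ha1
      _ = 2 * L := Real.rpow_one _

theorem two_points {a R L s : ℝ} {D : Finset ℝ} (hL : 100 ≤ L) (hR : 1 ≤ R) (hs : 0 < s)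
    (hRs : 1 ≤ R * s) (hcard : R ^ a ≤ L * (D.card : ℝ))
    (hreg : ∀ c δ : ℝ, 1 ≤ R * δ → ((D.filter fun c' => |c' - c| ≤ δ).card : ℝ) ≤ L * (R * δ) ^ a)
    (hsa : 2 * L ^ 22 * s ^ a ≤ 1) : ∃ c ∈ D, ∃ d ∈ D, s ≤ |c - d| := by
  by_contra hcon
  push Not at hcon
  have hL0 : 0 < L := by linarith
  have hR0 : 0 < R := by linarith
  have hRa : 0 < R ^ a := Real.rpow_pos_of_pos hR0 a
  have hsa0 : 0 < s ^ a := Real.rpow_pos_of_pos hs a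
  have hne : D.Nonempty := by
    rw [nonempty_iff_ne_empty]
    intro h
    rw [h] at hcard
    simp at hcard
    linarith
  obtain ⟨c0, hc0⟩ := hne
  have h : (D.filter fun c' => |c' - c0| ≤ s) = D :=
    filter_true_of_mem (fun c hc => (hcon c hc c0 hc0).le)
  have h2 := hreg c0 s hRs
  rw [h, Real.mul_rpow hR0.le hs.le] at h2
  have h3 : R ^ a ≤ R ^ a * (L ^ 2 * s ^ a) := by
    calc R ^ a ≤ L * (D.card : ℝ) := hcard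
      _ ≤ L * (L * (R ^ a * s ^ a)) := by gcongr
      _ = R ^ a * (L ^ 2 * s ^ a) := by ring
  have h4 : 1 ≤ L ^ 2 * s ^ a := by
    by_contra h5
    push Not at h5
    have : R ^ a * (L ^ 2 * s ^ a) < R ^ a * 1 := by gcongr
    linarith
  have h6 : L ^ 2 * s ^ a ≤ L ^ 22 * s ^ a := by
    gcongr
    · linarith
    · norm_num
  linarith

theorem natdist {i j : ℕ} (h : i ≠ j) : (1 : ℝ) ≤ |(i : ℝ) - (j : ℝ)| := by
  have h1 : (1 : ℤ) ≤ |(i : ℤ) - (j : ℤ)| := by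
    apply Int.one_le_abs
    intro h2
    apply h
    omega
  exact_mod_cast h1

/-- The final count. -/
theorem count {a R L s τ : ℝ} {D : Finset ℝ} (ha1 : a ≤ 1) (hL : 100 ≤ L)
    (hR : 1 ≤ R) (hs : 0 < s) (hD : ∀ c ∈ D, |c| ≤ L)
    (hreg : ∀ c δ : ℝ, 1 ≤ R * δ → ((D.filter fun c' => |c' - c| ≤ δ).card : ℝ) ≤ L * (R * δ) ^ a)
    (hbig : L ^ 26 ≤ s ^ 2 * R ^ (1 - a)) (hτ : τ = L ^ 4 / (s ^ 2 * R)) {m : ℕ}
    (hm : 1 / (8 * τ) < (m : ℝ))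
    (h : (m : ℝ) * R ^ (3 * a) ≤ 4 * L ^ 13 * (2 * (D.card : ℝ) ^ 4)) : False := by
  have hL0 : 0 < L := by linarith
  have hR0 : 0 < R := by linarith
  have hRa : 0 < R ^ a := Real.rpow_pos_of_pos hR0 a
  have hRa3 : 0 < R ^ (3 * a) := Real.rpow_pos_of_pos hR0 _
  have hcardD : (D.card : ℝ) ≤ L ^ 2 * R ^ a := by
    have h1 := hreg 0 L (by nlinarith)
    have h2 : (D.filter fun c' => |c' - 0| ≤ L) = D :=
      filter_true_of_mem (fun c hc => by rw [sub_zero]; exact hD c hc)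
    rw [h2, Real.mul_rpow hR0.le hL0.le] at h1
    have h3 : L ^ a ≤ L := by
      calc L ^ a ≤ L ^ (1 : ℝ) := Real.rpow_le_rpow_of_exponent_le (by linarith) ha1
        _ = L := Real.rpow_one _
    calc (D.card : ℝ) ≤ L * (R ^ a * L ^ a) := h1
      _ ≤ L * (R ^ a * L) := by gcongr
      _ = L ^ 2 * R ^ a := by ring
  have h4 : (R ^ a) ^ 4 = R ^ (3 * a) * R ^ a := by
    rw [← Real.rpow_natCast, ← Real.rpow_mul hR0.le, ← Real.rpow_add hR0]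
    congr 1
    push_cast
    ring
  have h5 : (m : ℝ) * R ^ (3 * a) ≤ (8 * L ^ 21 * R ^ a) * R ^ (3 * a) := by
    calc (m : ℝ) * R ^ (3 * a) ≤ 4 * L ^ 13 * (2 * (D.card : ℝ) ^ 4) := h
      _ ≤ 4 * L ^ 13 * (2 * (L ^ 2 * R ^ a) ^ 4) := by gcongr
      _ = 8 * L ^ 21 * (R ^ a) ^ 4 := by ring
      _ = (8 * L ^ 21 * R ^ a) * R ^ (3 * a) := by rw [h4]; ring
  have h6 : (m : ℝ) ≤ 8 * L ^ 21 * R ^ a := le_of_mul_le_mul_right h5 hRa3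
  have h7 : R ^ (1 - a) * R ^ a = R := by
    rw [← Real.rpow_add hR0]
    simp
  have h8 : L ^ 26 * R ^ a ≤ s ^ 2 * R := by
    calc L ^ 26 * R ^ a ≤ s ^ 2 * R ^ (1 - a) * R ^ a := by gcongr
      _ = s ^ 2 * R := by rw [mul_assoc, h7]
  have h9 : 1 / (8 * τ) = (s ^ 2 * R) / (8 * L ^ 4) := by
    rw [hτ]; field_simp
  have h10 : L ^ 22 * R ^ a / 8 ≤ (s ^ 2 * R) / (8 * L ^ 4) := by
    rw [div_le_div_iff₀ (by norm_num) (by positivity)]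
    nlinarith [h8]
  have h11 : L ^ 22 * R ^ a / 8 < 8 * L ^ 21 * R ^ a := by
    calc L ^ 22 * R ^ a / 8 ≤ (s ^ 2 * R) / (8 * L ^ 4) := h10
      _ = 1 / (8 * τ) := h9.symm
      _ < m := hm
      _ ≤ _ := h6
  have h12 : 8 * L ^ 21 * R ^ a ≤ L ^ 22 * R ^ a / 8 := by
    have : 0 < L ^ 21 * R ^ a := by positivity
    have e : L ^ 22 * R ^ a / 8 = (L / 8) * (L ^ 21 * R ^ a) := by ring
    rw [e]
    nlinarith
  linarith

end XPIV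

open XPIV in
theorem I_PIV (h1 : StPN) (h2 : StBis) (h3 : StFar) : StPiv := by
  intro a R L s D ha ha1 hL hR hs hs1 hcard hD hreg hup hsa hbig
  have hL0 : 0 < L := by linarith
  have hR0 : 0 < R := by linarith
  have hRa : 0 < R ^ a := Real.rpow_pos_of_pos hR0 a
  have hX : 0 < R ^ (3 * a) := Real.rpow_pos_of_pos hR0 _
  have hR1a : R ^ (1 - a) ≤ R := by
    calc R ^ (1 - a) ≤ R ^ (1 : ℝ) := Real.rpow_le_rpow_of_exponent_le hR (by linarith)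
      _ = R := Real.rpow_one _
  have h26 : L ^ 26 ≤ s ^ 2 * R := hbig.trans (by gcongr)
  have hL26 : (1 : ℝ) ≤ L ^ 26 := one_le_pow₀ (by linarith)
  have hRs : 1 ≤ R * s := by
    calc (1 : ℝ) ≤ s ^ 2 * R := hL26.trans h26
      _ = R * s * s := by ring
      _ ≤ R * s * 1 := by gcongr
      _ = R * s := by ring
  have hs2R : 0 < s ^ 2 * R := by positivity
  obtain ⟨τ, hτ⟩ : ∃ τ : ℝ, τ = L ^ 4 / (s ^ 2 * R) := ⟨_, rfl⟩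
  have hτ0 : 0 < τ := by rw [hτ]; positivity
  have hτ4 : τ ≤ 1 / 4 := by
    rw [hτ, div_le_div_iff₀ hs2R (by norm_num)]
    have : 4 * L ^ 4 ≤ L ^ 26 := by
      have h22 : (4 : ℝ) ≤ L ^ 22 := by
        calc (4 : ℝ) ≤ 100 ^ 22 := by norm_num
          _ ≤ L ^ 22 := by gcongr
      calc 4 * L ^ 4 ≤ L ^ 22 * L ^ 4 := by gcongr
        _ = L ^ 26 := by ring
    linarith
  have gen : ∀ {c₁ c₂ c₃ c₄ d₁ d₂ : ℝ}, c₁ ∈ D → c₂ ∈ D → c₃ ∈ D → c₄ ∈ D → d₁ ∈ D → d₂ ∈ D →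
      s ≤ |c₃ - c₄| → |c₁ - c₂| ≤ 2 * |c₃ - c₄| → |d₁ - d₂| ≤ 2 * |c₃ - c₄| →
      R ^ (3 * a) ≤ 4 * L ^ 13 * (((quad D ((c₁ - c₂ + (d₁ - d₂)) / (2 * (c₃ - c₄)))
        (τ * s)).filter fun z => s ≤ |z.2.1 - z.2.2|).card : ℝ) := by
    intro c₁ c₂ c₃ c₄ d₁ d₂ m1 m2 m3 m4 m5 m6 k1 k2 k3
    rw [hτ]
    exact general h1 ha ha1 hL hR hs hRs hD hreg hup hsa m1 m2 m3 m4 m5 m6 k1 k2 k3
  obtain ⟨Q, hQ⟩ : ∃ Q : Set ℝ, Q = {q | ∃ c₁ ∈ D, ∃ c₂ ∈ D, ∃ c₃ ∈ D, ∃ c₄ ∈ D,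
    s ≤ |c₃ - c₄| ∧ q = (c₁ - c₂) / (c₃ - c₄)} := ⟨_, rfl⟩
  obtain ⟨c, hc, d, hd, hcd⟩ := two_points hL hR hs hRs hcard hreg hsa
  have hcd0 : c - d ≠ 0 := by
    intro h
    rw [h, abs_zero] at hcd
    linarith
  have hQ0 : (0 : ℝ) ∈ Q := by
    rw [hQ]
    exact ⟨c, hc, c, hc, c, hc, d, hd, hcd, by simp⟩
  have hQ1 : (1 : ℝ) ∈ Q := by
    rw [hQ]
    exact ⟨c, hc, d, hd, c, hc, d, hd, hcd, by rw [div_self hcd0]⟩
  have near : ∀ t : ℝ, R ^ (3 * a) ≤ 4 * L ^ 13 * (((quad D t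
        (τ * s)).filter fun z => s ≤ |z.2.1 - z.2.2|).card : ℝ) → ∃ q' ∈ Q, |q' - t| ≤ τ := by
    intro t ht
    have hne : ((quad D t (τ * s)).filter fun z => s ≤ |z.2.1 - z.2.2|).Nonempty := by
      rw [nonempty_iff_ne_empty]
      intro h
      rw [h] at ht
      simp at ht
      linarith
    obtain ⟨z, hz⟩ := hne
    simp only [quad, mem_filter, mem_product] at hz
    obtain ⟨⟨⟨⟨z1, z2⟩, ⟨z3, z4⟩⟩, hz1⟩, hz2⟩ := hz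
    have hpos : 0 < |z.2.1 - z.2.2| := lt_of_lt_of_le hs hz2
    have hne' : z.2.1 - z.2.2 ≠ 0 := abs_pos.1 hpos
    refine ⟨(z.1.2 - z.1.1) / (z.2.1 - z.2.2), ?_, ?_⟩
    · rw [hQ]
      exact ⟨_, z2, _, z1, _, z3, _, z4, hz2, rfl⟩
    · have e : (z.1.2 - z.1.1) / (z.2.1 - z.2.2) - t =
          -((z.1.1 - z.1.2 + t * (z.2.1 - z.2.2)) / (z.2.1 - z.2.2)) := by
        field_simp
        ring
      rw [e, abs_neg, abs_div, div_le_iff₀ hpos]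
      exact hz1.trans (by gcongr)
  have bis := h2 Q τ hτ0 hτ4 hQ0 hQ1 (by
    intro q hq hq1 hq2
    have hq' := hq
    rw [hQ] at hq'
    obtain ⟨c₁, m1, c₂, m2, c₃, m3, c₄, m4, h34, rfl⟩ := hq'
    have hpos : 0 < |c₃ - c₄| := lt_of_lt_of_le hs h34
    have hne' : c₃ - c₄ ≠ 0 := abs_pos.1 hpos
    have h12 : |c₁ - c₂| ≤ 2 * |c₃ - c₄| := by
      have : |(c₁ - c₂) / (c₃ - c₄)| ≤ 2 := abs_le.2 ⟨by linarith, hq2⟩
      rwa [abs_div, div_le_iff₀ hpos] at this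
    constructor
    · have h := near _ (gen m1 m2 m3 m4 m1 m1 h34 h12 (by simp))
      have e : (c₁ - c₂ + (c₁ - c₁)) / (2 * (c₃ - c₄)) = (c₁ - c₂) / (c₃ - c₄) / 2 := by
        field_simp
        ring
      rwa [e] at h
    · have h := near _ (gen m1 m2 m3 m4 m3 m4 h34 h12 (by linarith))
      have e : (c₁ - c₂ + (c₃ - c₄)) / (2 * (c₃ - c₄)) = ((c₁ - c₂) / (c₃ - c₄) + 1) / 2 := by
        field_simp
      rwa [e] at h)
  have hex : ∀ i : ℕ, ∃ q : ℝ, 8 * τ * i ≤ 1 → q ∈ Q ∧ |q - 8 * τ * i| ≤ 3 * τ := by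
    intro i
    by_cases hi : 8 * τ * i ≤ 1
    · obtain ⟨q, hq, hq1⟩ := bis (8 * τ * i) (by positivity) hi
      exact ⟨q, fun _ => ⟨hq, hq1⟩⟩
    · exact ⟨0, fun h => absurd h hi⟩
  choose t ht using hex
  have hm1 : ∀ i < ⌊1 / (8 * τ)⌋₊ + 1, 8 * τ * (i : ℝ) ≤ 1 := by
    intro i hi
    have h : (i : ℝ) ≤ 1 / (8 * τ) := by
      have h' : i ≤ ⌊1 / (8 * τ)⌋₊ := by omega
      calc (i : ℝ) ≤ (⌊1 / (8 * τ)⌋₊ : ℝ) := by exact_mod_cast h'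
        _ ≤ 1 / (8 * τ) := Nat.floor_le (by positivity)
    rw [le_div_iff₀ (by positivity)] at h
    linarith
  have far := h3 s τ (⌊1 / (8 * τ)⌋₊ + 1) t D hs hτ0 (by
    intro i hi j hj hij
    have k1 := (ht i (hm1 i hi)).2
    have k2 := (ht j (hm1 j hj)).2
    have k3 := natdist hij
    have k4 : 8 * τ ≤ |8 * τ * (i : ℝ) - 8 * τ * (j : ℝ)| := by
      rw [← mul_sub, abs_mul, abs_of_pos (by positivity : 0 < 8 * τ)]
      nlinarith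
    have e : 8 * τ * (i : ℝ) - 8 * τ * (j : ℝ) =
        -(t i - 8 * τ * (i : ℝ)) + (t i - t j) + (t j - 8 * τ * (j : ℝ)) := by ring
    have k5 : |8 * τ * (i : ℝ) - 8 * τ * (j : ℝ)| ≤
        |t i - 8 * τ * (i : ℝ)| + |t i - t j| + |t j - 8 * τ * (j : ℝ)| := by
      rw [e]
      refine (abs_add_le _ _).trans ?_
      gcongr
      refine (abs_add_le _ _).trans ?_
      rw [abs_neg]
    linarith)
  have each : ∀ i ∈ range (⌊1 / (8 * τ)⌋₊ + 1), R ^ (3 * a) ≤ 4 * L ^ 13 *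
      (((quad D (t i) (τ * s)).filter fun z => s ≤ |z.2.1 - z.2.2|).card : ℝ) := by
    intro i hi
    rw [mem_range] at hi
    obtain ⟨k1, k2⟩ := ht i (hm1 i hi)
    have k3 := hm1 i hi
    have k4 : 0 ≤ 8 * τ * (i : ℝ) := by positivity
    obtain ⟨k5, k6⟩ := abs_le.1 k2
    have k7 : |t i| ≤ 2 := abs_le.2 ⟨by linarith, by linarith⟩
    rw [hQ] at k1
    obtain ⟨c₁, m1, c₂, m2, c₃, m3, c₄, m4, h34, hti⟩ := k1
    have hpos : 0 < |c₃ - c₄| := lt_of_lt_of_le hs h34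
    have hne' : c₃ - c₄ ≠ 0 := abs_pos.1 hpos
    have h12 : |c₁ - c₂| ≤ 2 * |c₃ - c₄| := by
      rw [hti, abs_div, div_le_iff₀ hpos] at k7
      exact k7
    have h := gen m1 m2 m3 m4 m1 m2 h34 h12 h12
    have e : (c₁ - c₂ + (c₁ - c₂)) / (2 * (c₃ - c₄)) = t i := by
      rw [hti]
      field_simp
      ring
    rwa [e] at h
  have hsum := Finset.sum_le_sum each
  rw [sum_const, card_range, nsmul_eq_mul, ← mul_sum] at hsum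
  refine count ha1 hL hR hs hD hreg hbig hτ (m := ⌊1 / (8 * τ)⌋₊ + 1) ?_ ?_
  · push_cast
    exact Nat.lt_floor_add_one _
  · refine hsum.trans ?_
    gcongr

end Pool.Agent.Work.MP_e17eac_co.RING
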