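import Pool.Agent.Work.MP_e17eac_co.Bd.B03

/-!
# Ring module, item PN: few quadruples with two near members
-/

set_option autoImplicit false

namespace Pool.Agent.Work.MP_e17eac_co.RING

open Finset

namespace XPN

theorem nat_bound {n : ℕ} {x : ℝ} (h : (n : ℝ) ≤ x) : n ≤ ⌊x⌋₊ := Nat.le_floor h

theorem card_quad (D : Finset ℝ) (t δ s X Y Z : ℝ) (hX : 0 ≤ X) (hY : 0 ≤ Y) (hZ : 0 ≤ Z)
    (h1 : (D.card : ℝ) ≤ X)
    (h2 : ∀ c : ℝ, ((D.filter fun c' => |c' - c| ≤ s).card : ℝ) ≤ Y)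
    (h3 : ∀ c : ℝ, ((D.filter fun c' => |c' - c| ≤ δ).card : ℝ) ≤ Z) :
    (((quad D t δ).filter fun z => |z.2.1 - z.2.2| < s).card : ℝ) ≤ X * (Y * (X * Z)) := by
  classical
  let F : Finset ((ℝ × ℝ) × (ℝ × ℝ)) := D.biUnion fun z3 =>
    (D.filter fun c' => |c' - z3| ≤ s).biUnion fun z4 => D.biUnion fun z2 =>
      (D.filter fun c' => |c' - (z2 - t * (z3 - z4))| ≤ δ).image fun z1 => ((z1, z2), (z3, z4))
  have hsub : ((quad D t δ).filter fun z => |z.2.1 - z.2.2| < s) ⊆ F := by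
    rintro ⟨⟨z1, z2⟩, ⟨z3, z4⟩⟩ hz
    simp only [quad, mem_filter, mem_product] at hz
    obtain ⟨⟨⟨⟨m1, m2⟩, ⟨m3, m4⟩⟩, hd⟩, hs⟩ := hz
    simp only [F, mem_biUnion, mem_filter, mem_image]
    refine ⟨z3, m3, z4, ⟨m4, ?_⟩, z2, m2, z1, ⟨m1, ?_⟩, rfl⟩
    · rw [abs_sub_comm]
      exact hs.le
    · have : z1 - (z2 - t * (z3 - z4)) = z1 - z2 + t * (z3 - z4) := by ring
      rw [this]
      exact hd
  have hF : F.card ≤ D.card * (⌊Y⌋₊ * (D.card * ⌊Z⌋₊)) := by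
    refine card_biUnion_le_card_mul _ _ _ fun z3 _ => ?_
    refine le_trans (card_biUnion_le_card_mul _ _ (D.card * ⌊Z⌋₊) fun z4 _ => ?_)
      (Nat.mul_le_mul_right _ (nat_bound (h2 z3)))
    refine card_biUnion_le_card_mul _ _ _ fun z2 _ => ?_
    exact card_image_le.trans (nat_bound (h3 _))
  have hY' : ((⌊Y⌋₊ : ℕ) : ℝ) ≤ Y := Nat.floor_le hY
  have hZ' : ((⌊Z⌋₊ : ℕ) : ℝ) ≤ Z := Nat.floor_le hZ
  have h4 : (((quad D t δ).filter fun z => |z.2.1 - z.2.2| < s).card : ℝ) ≤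
      (D.card : ℝ) * ((⌊Y⌋₊ : ℝ) * ((D.card : ℝ) * (⌊Z⌋₊ : ℝ))) := by
    exact_mod_cast (card_le_card hsub).trans hF
  refine h4.trans ?_
  gcongr

end XPN

theorem I_PN : StPN := by
  intro a R L s t δ D ha ha1 hL hR hs hδ hD hreg
  have hR0 : 0 < R := by linarith
  have hL0 : 0 < L := by linarith
  have hs0 : 0 ≤ R * s := by linarith
  have hδ0 : 0 ≤ R * δ := by linarith
  have hcard : (D.card : ℝ) ≤ L ^ 2 * R ^ a := by
    have h1 := hreg 0 L (by nlinarith)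
    have h2 : D.filter (fun c' => |c' - 0| ≤ L) = D := by
      refine filter_true_of_mem fun c hc => ?_
      rw [sub_zero]
      exact hD c hc
    rw [h2, Real.mul_rpow hR0.le hL0.le] at h1
    have h3 : L ^ a ≤ L := by
      calc L ^ a ≤ L ^ (1 : ℝ) := Real.rpow_le_rpow_of_exponent_le hL ha1
        _ = L := Real.rpow_one L
    have h4 : 0 ≤ R ^ a := Real.rpow_nonneg hR0.le a
    calc (D.card : ℝ) ≤ L * (R ^ a * L ^ a) := h1
      _ ≤ L * (R ^ a * L) := by gcongr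
      _ = L ^ 2 * R ^ a := by ring
  have h5 : 0 ≤ R ^ a := Real.rpow_nonneg hR0.le a
  have h6 : 0 ≤ (R * s) ^ a := Real.rpow_nonneg hs0 a
  have h7 : 0 ≤ (R * δ) ^ a := Real.rpow_nonneg hδ0 a
  refine (XPN.card_quad D t δ s (L ^ 2 * R ^ a) (L * (R * s) ^ a) (L * (R * δ) ^ a)
    (by positivity) (by positivity) (by positivity) hcard (fun c => hreg c s hs)
    (fun c => hreg c δ hδ)).trans (le_of_eq ?_)
  have h8 : R ^ (2 * a) = R ^ a * R ^ a := by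
    rw [← Real.rpow_add hR0]
    congr 1
    ring
  rw [h8]
  ring

end Pool.Agent.Work.MP_e17eac_co.RING
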