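import Pool.Agent.Work.MP_e17eac_co.RING.P_COV
import Pool.Agent.Work.MP_e17eac_co.RING.P_UP
import Pool.Agent.Work.MP_e17eac_co.RING.P_PN
import Pool.Agent.Work.MP_e17eac_co.Bd.B29
import Pool.Agent.Work.MP_e17eac_co.RING.P_PIV

/-!
# Ring module: choice of the parameters
-/

namespace Pool.Agent.Work.MP_e17eac_co.RING

open Finset

/-- Quantitative form: `K` only has to be at least `100` and `log R + 2`, and
`K ^ (10 ^ 9 N ^ 3) ≤ R`. -/
theorem ring_quant (hRL : StRL) (a R K : ℝ) (N : ℕ) (A : Finset ℝ) (T : Finset (ℝ × ℝ))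
    (I : Finset ((ℝ × ℝ) × ℝ)) (hN : 1 ≤ N) (ha : 1 ≤ a * N) (ha' : 1 ≤ (1 - a) * N)
    (hK : 100 ≤ K) (hKR : Real.logb 2 R + 2 ≤ K) (hR : 1 ≤ R)
    (hbig : K ^ (1000000000 * N ^ 4) ≤ R) : ¬ Config a R K A T I := by
  intro hC
  have hNr : (1 : ℝ) ≤ N := by exact_mod_cast hN
  have hN0 : (0 : ℝ) < N := by linarith
  have ha0 : 0 < a := by
    by_contra h
    have : a * N ≤ 0 := mul_nonpos_of_nonpos_of_nonneg (not_lt.1 h) hN0.le
    linarith
  have ha1 : 0 < 1 - a := by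
    by_contra h
    have : (1 - a) * N ≤ 0 := mul_nonpos_of_nonpos_of_nonneg (not_lt.1 h) hN0.le
    linarith
  have hK1 : 1 ≤ K := by linarith
  have hK0 : 0 < K := by linarith
  have hR0 : 0 < R := by linarith
  -- powers of `R` with exponent `x ≥ 1 / N`
  have hpow : ∀ x : ℝ, 1 ≤ x * N → ∀ m : ℕ, m ≤ 1000000000 * N ^ 3 → K ^ m ≤ R ^ x := by
    intro x hx m hm
    have hx0 : 0 < x := by
      by_contra h
      have : x * N ≤ 0 := mul_nonpos_of_nonpos_of_nonneg (not_lt.1 h) hN0.le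
      linarith
    have h1 : (K ^ (1000000000 * N ^ 4)) ^ x ≤ R ^ x :=
      Real.rpow_le_rpow (by positivity) hbig hx0.le
    have h2 : (K ^ (1000000000 * N ^ 4)) ^ x = K ^ ((1000000000 * (N : ℝ) ^ 4) * x) := by
      rw [← Real.rpow_natCast, ← Real.rpow_mul hK0.le]
      push_cast
      ring_nf
    have h3 : (m : ℝ) ≤ (1000000000 * (N : ℝ) ^ 4) * x := by
      have e1 : (m : ℝ) ≤ 1000000000 * (N : ℝ) ^ 3 := by exact_mod_cast hm
      have e2 : 1000000000 * (N : ℝ) ^ 3 * 1 ≤ 1000000000 * (N : ℝ) ^ 3 * (x * N) :=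
        mul_le_mul_of_nonneg_left hx (by positivity)
      have e3 : 1000000000 * (N : ℝ) ^ 3 * (x * N) = (1000000000 * (N : ℝ) ^ 4) * x := by ring
      linarith
    calc K ^ m = K ^ (m : ℝ) := (Real.rpow_natCast K m).symm
      _ ≤ K ^ ((1000000000 * (N : ℝ) ^ 4) * x) := Real.rpow_le_rpow_of_exponent_le hK1 h3
      _ = (K ^ (1000000000 * N ^ 4)) ^ x := h2.symm
      _ ≤ R ^ x := h1
  have hN2 : N ^ 2 ≤ N ^ 3 := Nat.pow_le_pow_right hN (by norm_num)
  obtain ⟨D, A₀, r, β, Y, hD⟩ := hRL a R K N A T I ha0 (by linarith) hN ha hK hKR hR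
    (hpow a ha _ (by omega)) hC
  set L : ℝ := K ^ (13000000 * N ^ 2) with hLdef
  have hL100 : 100 ≤ L := by
    calc (100 : ℝ) ≤ K := hK
      _ = K ^ 1 := (pow_one K).symm
      _ ≤ K ^ (13000000 * N ^ 2) := pow_le_pow_right₀ hK1 (by
        have : 1 ≤ N ^ 2 := Nat.one_le_pow _ _ hN
        omega)
  have hL0 : 0 < L := by linarith
  have hL1 : 1 ≤ L := by linarith
  set s : ℝ := (L ^ (23 * N))⁻¹ with hsdef
  have hs0 : 0 < s := by rw [hsdef]; positivity
  have hs1 : s ≤ 1 := by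
    rw [hsdef]
    exact inv_le_one_of_one_le₀ (one_le_pow₀ hL1)
  refine I_PIV I_PN I_BIS I_FAR a R L s D ha0 (by linarith) hL100 hR hs0 hs1 hD.card
    (fun c hc => (hD.bdD c hc).1) hD.reg
    (I_UP I_COV a R L D A₀ r β Y ha0 (by linarith) hL100 hR hD) ?_ ?_
  · -- `2 L ^ 22 s ^ a ≤ 1`
    have h1 : s ^ a ≤ (L ^ 23)⁻¹ := by
      rw [hsdef, Real.inv_rpow (by positivity)]
      apply inv_anti₀ (by positivity)
      have e : (L ^ (23 * N)) ^ a = L ^ (23 * ((N : ℝ) * a)) := by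
        rw [← Real.rpow_natCast, ← Real.rpow_mul hL0.le]
        push_cast
        ring_nf
      rw [e]
      calc L ^ 23 = L ^ ((23 : ℕ) : ℝ) := (Real.rpow_natCast L 23).symm
        _ ≤ L ^ (23 * ((N : ℝ) * a)) := Real.rpow_le_rpow_of_exponent_le hL1 (by
          push_cast
          nlinarith)
    calc 2 * L ^ 22 * s ^ a ≤ 2 * L ^ 22 * (L ^ 23)⁻¹ :=
          mul_le_mul_of_nonneg_left h1 (by positivity)
      _ = 2 / L := by
          field_simp
      _ ≤ 1 := by
          rw [div_le_one hL0]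
          linarith
  · -- `L ^ 26 ≤ s ^ 2 R ^ (1 - a)`
    have h1 : K ^ (13000000 * N ^ 2 * (26 + 46 * N)) ≤ R ^ (1 - a) := by
      apply hpow (1 - a) ha'
      have e1 : 26 + 46 * N ≤ 72 * N := by omega
      calc 13000000 * N ^ 2 * (26 + 46 * N) ≤ 13000000 * N ^ 2 * (72 * N) :=
            Nat.mul_le_mul_left _ e1
        _ = 936000000 * N ^ 3 := by ring
        _ ≤ 1000000000 * N ^ 3 := Nat.mul_le_mul_right _ (by norm_num)
    have h2 : L ^ (26 + 46 * N) ≤ R ^ (1 - a) := by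
      rw [hLdef, ← pow_mul]
      exact h1
    have h3 : s ^ 2 * L ^ (46 * N) = 1 := by
      rw [hsdef, inv_pow, ← pow_mul]
      have : 23 * N * 2 = 46 * N := by ring
      rw [this]
      exact inv_mul_cancel₀ (by positivity)
    calc L ^ 26 = s ^ 2 * L ^ (46 * N) * L ^ 26 := by rw [h3, one_mul]
      _ = s ^ 2 * L ^ (26 + 46 * N) := by rw [pow_add]; ring
      _ ≤ s ^ 2 * R ^ (1 - a) := mul_le_mul_of_nonneg_left h2 (by positivity)

/-- The main theorem of the ring module, from the structure theorem. -/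
theorem I_RING (hRL : StRL) : RingMain := by
  intro a₀ ha₀
  obtain ⟨N, hN⟩ := exists_nat_gt (1 / a₀)
  have hN' : 1 < a₀ * N := by
    rw [div_lt_iff₀ ha₀] at hN
    linarith
  have hN1 : 1 ≤ N := by
    rcases Nat.eq_zero_or_pos N with h | h
    · subst h
      norm_num at hN'
    · exact h
  have hNr : (1 : ℝ) ≤ N := by exact_mod_cast hN1
  have hN0 : (0 : ℝ) < N := by linarith
  set m : ℕ := 1000000000 * N ^ 4 with hm
  have hm0 : 0 < m := by positivity
  have hmr : (0 : ℝ) < m := by exact_mod_cast hm0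
  refine ⟨1 / m, by positivity, ?_⟩
  have ht : Filter.Tendsto (fun R : ℝ => R ^ (1 / (m : ℝ))) Filter.atTop Filter.atTop :=
    tendsto_rpow_atTop (by positivity)
  have hlog : ∀ᶠ R : ℝ in Filter.atTop, Real.logb 2 R + 2 ≤ R ^ (1 / (m : ℝ)) := by
    have h1 : (fun R : ℝ => Real.log R) =o[Filter.atTop] fun R : ℝ => R ^ (1 / (m : ℝ)) :=
      isLittleO_log_rpow_atTop (by positivity)
    have h2 := h1.bound (show (0 : ℝ) < 1 / 4 by norm_num)
    filter_upwards [h2, ht.eventually_ge_atTop 8, Filter.eventually_ge_atTop (1 : ℝ)]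
      with R hR h8 hR1
    have hl0 : 0 ≤ Real.log R := Real.log_nonneg hR1
    rw [Real.norm_of_nonneg hl0, Real.norm_of_nonneg (by linarith)] at hR
    have hl2 : (1 : ℝ) / 2 < Real.log 2 := by
      have := Real.log_two_gt_d9
      linarith
    have h3 : Real.logb 2 R ≤ 2 * Real.log R := by
      rw [Real.logb, div_le_iff₀ (by linarith)]
      nlinarith
    linarith
  obtain ⟨R1, hR1⟩ := Filter.eventually_atTop.1
    (hlog.and (ht.eventually_ge_atTop 100))
  refine ⟨max R1 1, le_max_right _ _, ?_⟩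
  intro a R ha ha' hR A T I
  have hR1' : R1 ≤ R := (le_max_left _ _).trans hR
  have hR1'' : 1 ≤ R := (le_max_right _ _).trans hR
  obtain ⟨h1, h2⟩ := hR1 R hR1'
  refine ring_quant hRL a R (R ^ (1 / (m : ℝ))) N A T I hN1 ?_ ?_ h2 h1 hR1'' ?_
  · have : a₀ * N ≤ a * N := mul_le_mul_of_nonneg_right ha hN0.le
    linarith
  · have : a₀ * N ≤ (1 - a) * N := mul_le_mul_of_nonneg_right (by linarith) hN0.le
    linarith
  · rw [← Real.rpow_natCast, ← Real.rpow_mul (by linarith), ← hm, one_div,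
      inv_mul_cancel₀ hmr.ne', Real.rpow_one]

end Pool.Agent.Work.MP_e17eac_co.RING
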